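import Pool.Agent.Lib_helper96.AQC.CA3

/-!
# AQ: COV for the boxes (helper96): the mean over `SL₂(ℤ/m)` of a function of the form (port of PEQ GA4)
-/

set_option autoImplicit false

namespace Pool.Agent.AQ.CV

open Finset Pool.Agent.PENT Pool.Agent.PENT.EQ

/-- the form of a matrix over a commutative ring -/
def cq {S : Type} [CommRing S] (E : S) (g : S × S × S × S) : S × S × S :=
  (g.1 ^ 2 + E * g.2.2.1 ^ 2, g.1 * g.2.1 + E * (g.2.2.1 * g.2.2.2), g.2.1 ^ 2 + E * g.2.2.2 ^ 2)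

/-- the forms of determinant `E` over `ZMod m` -/
noncomputable def cV (m : ℕ) [NeZero m] (E : ZMod m) : Finset (ZMod m × ZMod m × ZMod m) :=
  by classical exact univ.filter (fun v => v.1 * v.2.2 - v.2.1 ^ 2 = E)

theorem ca4_memV (m : ℕ) [NeZero m] (E : ZMod m) (v : ZMod m × ZMod m × ZMod m) :
    v ∈ cV m E ↔ v.1 * v.2.2 - v.2.1 ^ 2 = E := by
  unfold cV
  simp

/-- the fibres have the same size -/
theorem ca4_fib (m : ℕ) [NeZero m] (E : ZMod m) (P : ZMod m × ZMod m × ZMod m × ZMod m)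
    (hP : P.1 * P.2.2.2 - P.2.1 * P.2.2.1 = 1) :
    ((SLM m).filter (fun g => cq E g = cq E P)).card =
      ((SLM m).filter (fun g => cq E g = (1, 0, E))).card := by
  refine Finset.card_nbij' (fun g => ga4_m g (ga4_i P)) (fun g => ga4_m g P) ?_ ?_ ?_ ?_
  · intro g hg
    obtain ⟨a, b, c, d⟩ := g
    obtain ⟨α, β, γ, δ⟩ := P
    have hg' := Finset.mem_coe.1 hg
    rw [Finset.mem_filter, ga4_memS] at hg'
    simp only [cq, Prod.mk.injEq] at hg'
    obtain ⟨h0, h1, h2, h3⟩ := hg'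
    simp only at hP
    refine Finset.mem_coe.2 ?_
    rw [Finset.mem_filter, ga4_memS]
    simp only [cq, ga4_m, ga4_i, Prod.mk.injEq]
    refine ⟨?_, ?_, ?_, ?_⟩
    · linear_combination (a * d - b * c) * hP + h0
    · linear_combination δ ^ 2 * h1 - 2 * γ * δ * h2 + γ ^ 2 * h3 + (α * δ - β * γ + 1) * hP
    · linear_combination (- β * δ) * h1 + (α * δ + β * γ) * h2 - α * γ * h3
    · linear_combination β ^ 2 * h1 - 2 * α * β * h2 + α ^ 2 * h3 +
        E * (α * δ - β * γ + 1) * hP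
  · intro g hg
    obtain ⟨a, b, c, d⟩ := g
    obtain ⟨α, β, γ, δ⟩ := P
    have hg' := Finset.mem_coe.1 hg
    rw [Finset.mem_filter, ga4_memS] at hg'
    simp only [cq, Prod.mk.injEq] at hg'
    obtain ⟨h0, h1, h2, h3⟩ := hg'
    simp only at hP
    refine Finset.mem_coe.2 ?_
    rw [Finset.mem_filter, ga4_memS]
    simp only [cq, ga4_m, Prod.mk.injEq]
    refine ⟨?_, ?_, ?_, ?_⟩
    · linear_combination (a * d - b * c) * hP + h0
    · linear_combination α ^ 2 * h1 + 2 * α * γ * h2 + γ ^ 2 * h3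
    · linear_combination α * β * h1 + (α * δ + β * γ) * h2 + γ * δ * h3
    · linear_combination β ^ 2 * h1 + 2 * β * δ * h2 + δ ^ 2 * h3
  · intro g _
    obtain ⟨a, b, c, d⟩ := g
    obtain ⟨α, β, γ, δ⟩ := P
    simp only at hP
    simp only [ga4_m, ga4_i, Prod.mk.injEq]
    refine ⟨?_, ?_, ?_, ?_⟩
    · linear_combination a * hP
    · linear_combination b * hP
    · linear_combination c * hP
    · linear_combination d * hP
  · intro g _
    obtain ⟨a, b, c, d⟩ := g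
    obtain ⟨α, β, γ, δ⟩ := P
    simp only at hP
    simp only [ga4_m, ga4_i, Prod.mk.injEq]
    refine ⟨?_, ?_, ?_, ?_⟩
    · linear_combination a * hP
    · linear_combination b * hP
    · linear_combination c * hP
    · linear_combination d * hP

theorem ca4_maps (m : ℕ) [NeZero m] (E : ZMod m) (g : ZMod m × ZMod m × ZMod m × ZMod m)
    (hg : g ∈ SLM m) : cq E g ∈ cV m E := by
  rw [ga4_memS] at hg
  rw [ca4_memV]
  simp only [cq]
  linear_combination E * (g.1 * g.2.2.2 - g.2.1 * g.2.2.1 + 1) * hg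

variable [Cst]

/-- every form over `ZMod m` comes from a matrix -/
theorem ca4_surj (m : ℕ) [NeZero m] (hm : Nat.Coprime m R) (v : ZMod m × ZMod m × ZMod m)
    (hv : v.1 * v.2.2 - v.2.1 ^ 2 = ((D : ℤ) : ZMod m)) :
    ∃ P : ZMod m × ZMod m × ZMod m × ZMod m,
      P.1 * P.2.2.2 - P.2.1 * P.2.2.1 = 1 ∧ cq ((D : ℤ) : ZMod m) P = v := by
  obtain ⟨a, b, c⟩ := v
  simp only at hv
  have h1 : (m : ℤ) ∣ ((a.val : ℕ) : ℤ) * ((c.val : ℕ) : ℤ) - ((b.val : ℕ) : ℤ) ^ 2 - D := by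
    rw [ga4_dvd]
    rw [Int.cast_sub, Int.cast_sub, Int.cast_mul, Int.cast_pow, ga4_val, ga4_val,
      ga4_val]
    linear_combination hv
  obtain ⟨α, β, γ, δ, k1, k2, k3, k4⟩ := form_surj m (odd_of_copR hm) D _ _ _ (copD_of_copR hm) h1
  rw [ga4_dvd] at k1 k2 k3 k4
  rw [Int.cast_sub, ga4_val] at k2 k3 k4
  push_cast at k1 k2 k3 k4
  refine ⟨((α : ZMod m), (β : ZMod m), (γ : ZMod m), (δ : ZMod m)), ?_, ?_⟩
  · linear_combination k1
  · simp only [cq, Prod.mk.injEq]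
    refine ⟨?_, ?_, ?_⟩
    · linear_combination k2
    · linear_combination k3
    · linear_combination k4

theorem ca4_lift (m : ℕ) [NeZero m] (h : ℤ × ℤ × ℤ → ℝ) (hh : Per3 m h)
    (g : ZMod m × ZMod m × ZMod m × ZMod m) :
    h (QQ (lft g)) = ga4_H h (cq ((D : ℤ) : ZMod m) g) := by
  unfold ga4_H
  refine hh _ _ ?_ ?_ ?_
  · rw [ga4_dvd, Int.cast_sub, ga4_val]
    simp only [QQ, lft, cq]
    push_cast
    simp
  · rw [ga4_dvd, Int.cast_sub, ga4_val]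
    simp only [QQ, lft, cq]
    push_cast
    simp
  · rw [ga4_dvd, Int.cast_sub, ga4_val]
    simp only [QQ, lft, cq]
    push_cast
    simp

theorem ca4_memV3 (m : ℕ) (v : ℤ × ℤ × ℤ) : v ∈ V3 m ↔
    ((0 ≤ v.1 ∧ v.1 < m) ∧ (0 ≤ v.2.1 ∧ v.2.1 < m) ∧ (0 ≤ v.2.2 ∧ v.2.2 < m)) ∧
      (m : ℤ) ∣ v.1 * v.2.2 - v.2.1 ^ 2 - D := by
  unfold V3
  rw [Finset.mem_filter, Finset.mem_product, Finset.mem_product, Finset.mem_Ico, Finset.mem_Ico,
    Finset.mem_Ico]

/-- sums over `V3 m` -/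
theorem ca4_sum (m : ℕ) [NeZero m] (h : ℤ × ℤ × ℤ → ℝ) :
    ∑ v ∈ V3 m, h v = ∑ w ∈ cV m ((D : ℤ) : ZMod m), ga4_H h w := by
  refine Finset.sum_nbij' (fun v => ((v.1 : ZMod m), (v.2.1 : ZMod m), (v.2.2 : ZMod m)))
    (fun w => (((w.1.val : ℕ) : ℤ), ((w.2.1.val : ℕ) : ℤ), ((w.2.2.val : ℕ) : ℤ)))
    ?_ ?_ ?_ ?_ ?_
  · intro v hv
    rw [ca4_memV3] at hv
    rw [ca4_memV]
    have h1 := hv.2
    rw [ga4_dvd] at h1
    push_cast at h1
    linear_combination h1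
  · intro w hw
    rw [ca4_memV] at hw
    rw [ca4_memV3]
    have hpos : ∀ z : ZMod m, (0 : ℤ) ≤ ((z.val : ℕ) : ℤ) ∧ ((z.val : ℕ) : ℤ) < m := by
      intro z
      exact ⟨Int.natCast_nonneg _, by exact_mod_cast ZMod.val_lt z⟩
    refine ⟨⟨hpos _, hpos _, hpos _⟩, ?_⟩
    rw [ga4_dvd]
    rw [Int.cast_sub, Int.cast_sub, Int.cast_mul, Int.cast_pow, ga4_val, ga4_val,
      ga4_val]
    linear_combination hw
  · intro v hv
    rw [ca4_memV3] at hv
    obtain ⟨⟨h1, h2, h3⟩, _⟩ := hv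
    refine Prod.ext ?_ (Prod.ext ?_ ?_)
    · exact ga4_valint m _ h1.1 h1.2
    · exact ga4_valint m _ h2.1 h2.2
    · exact ga4_valint m _ h3.1 h3.2
  · intro w _
    refine Prod.ext ?_ (Prod.ext ?_ ?_)
    · exact ga4_val m _
    · exact ga4_val m _
    · exact ga4_val m _
  · intro v hv
    rw [ca4_memV3] at hv
    obtain ⟨⟨h1, h2, h3⟩, _⟩ := hv
    unfold ga4_H
    congr 1
    refine Prod.ext ?_ (Prod.ext ?_ ?_)
    · exact (ga4_valint m _ h1.1 h1.2).symm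
    · exact (ga4_valint m _ h2.1 h2.2).symm
    · exact (ga4_valint m _ h3.1 h3.2).symm

/-- sums over `SLM m` of functions of the form -/
theorem ca4_sumS (m : ℕ) [NeZero m] (hm : Nat.Coprime m R)
    (H : ZMod m × ZMod m × ZMod m → ℝ) :
    ∑ g ∈ SLM m, H (cq ((D : ℤ) : ZMod m) g) =
      (((SLM m).filter (fun g => cq ((D : ℤ) : ZMod m) g =
        (1, 0, ((D : ℤ) : ZMod m)))).card : ℝ) * ∑ w ∈ cV m ((D : ℤ) : ZMod m), H w := by
  rw [← Finset.sum_fiberwise_of_maps_to (ca4_maps m ((D : ℤ) : ZMod m))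
    (fun g => H (cq ((D : ℤ) : ZMod m) g)), Finset.mul_sum]
  refine Finset.sum_congr rfl fun v hv => ?_
  have e1 : ∑ g ∈ (SLM m).filter (fun g => cq ((D : ℤ) : ZMod m) g = v),
      H (cq ((D : ℤ) : ZMod m) g) =
      ∑ g ∈ (SLM m).filter (fun g => cq ((D : ℤ) : ZMod m) g = v), H v := by
    refine Finset.sum_congr rfl fun g hg => ?_
    rw [(Finset.mem_filter.1 hg).2]
  rw [e1, Finset.sum_const, nsmul_eq_mul]
  rw [ca4_memV] at hv
  obtain ⟨P, hP, hq⟩ := ca4_surj m hm v hv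
  have e2 := ca4_fib m ((D : ℤ) : ZMod m) P hP
  rw [hq] at e2
  rw [e2]

theorem EM_form (m : ℕ) [NeZero m] (hm : Nat.Coprime m R) (h : ℤ × ℤ × ℤ → ℝ)
    (hh : Per3 m h) : EM m (fun g => h (QQ g)) = MV m h := by
  have e1 : ∑ g ∈ SLM m, h (QQ (lft g)) =
      (((SLM m).filter (fun g => cq ((D : ℤ) : ZMod m) g =
        (1, 0, ((D : ℤ) : ZMod m)))).card : ℝ) *
        ∑ w ∈ cV m ((D : ℤ) : ZMod m), ga4_H h w := by
    rw [← ca4_sumS m hm]
    exact Finset.sum_congr rfl fun g _ => ca4_lift m h hh g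
  have e2 : ((SLM m).card : ℝ) =
      (((SLM m).filter (fun g => cq ((D : ℤ) : ZMod m) g =
        (1, 0, ((D : ℤ) : ZMod m)))).card : ℝ) * ((cV m ((D : ℤ) : ZMod m)).card : ℝ) := by
    have := ca4_sumS m hm (fun _ => (1 : ℝ))
    simpa using this
  have e3 : ((V3 m).card : ℝ) = ((cV m ((D : ℤ) : ZMod m)).card : ℝ) := by
    have := ca4_sum m (fun _ => (1 : ℝ))
    simpa [ga4_H] using this
  have hk : (((SLM m).filter (fun g => cq ((D : ℤ) : ZMod m) g =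
        (1, 0, ((D : ℤ) : ZMod m)))).card : ℝ) ≠ 0 := by
    have hmem : ((1, 0, 0, 1) : ZMod m × ZMod m × ZMod m × ZMod m) ∈
        (SLM m).filter (fun g => cq ((D : ℤ) : ZMod m) g = (1, 0, ((D : ℤ) : ZMod m))) := by
      rw [Finset.mem_filter, ga4_memS]
      simp [cq]
    exact_mod_cast Finset.card_ne_zero.2 ⟨_, hmem⟩
  unfold EM MV
  rw [e1, e2, e3, ca4_sum]
  exact mul_div_mul_left _ _ hk

end Pool.Agent.AQ.CV
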