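import Pool.Agent.Lib_helper96.AQC.CC1

/-!
# AQ: COV for the boxes (helper96): the forms of a box are in `AW`
-/

set_option autoImplicit false

namespace Pool.Agent.AQ.CV

open Finset Pool.Agent.PENT Pool.Agent.PENT.EQ

variable [Cst]

/-- the congruences of the form -/
theorem form_cls {t : ℤ × ℤ × ℤ} (hd : t.1 ∣ t.2.1 * t.2.2 + 1) (h1 : Int.gcd t.1 (R : ℤ) = 1)
    (h2 : (emat t).2.1 % a0 = b0 * (emat t).2.2.2 % a0) :
    a0 ∣ (QQ (emat t)).2.1 - b0 ∧ a0 ∣ (QQ (emat t)).2.2 ∧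
      IsCoprime (QQ (emat t)).1 (R : ℤ) := by
  have hdet := emat_det hd
  have hb : a0 ∣ b0 * (emat t).2.2.2 - t.2.1 := Int.modEq_iff_dvd.1 h2
  rw [QQ_emat]
  set δ := (emat t).2.2.2
  simp only
  have hD : D = a0 - b0 ^ 2 := by unfold a0; ring
  obtain ⟨k, hk⟩ := hb
  have hβ : t.2.1 = b0 * δ - a0 * k := by linarith
  refine ⟨?_, ?_, ?_⟩
  · -- `α β + D γ δ - b0`
    have e : t.1 * t.2.1 + D * (t.2.2 * δ) - b0 =
        a0 * (-(t.1 * k) + t.2.2 * δ - b0 * t.2.2 * k) := by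
      have h3 : b0 * (t.1 * δ - t.2.1 * t.2.2 - 1) = 0 := by rw [hdet]; ring
      rw [hD]
      rw [hβ] at h3 ⊢
      linear_combination h3
    rw [e]
    exact dvd_mul_right _ _
  · have e : t.2.1 ^ 2 + D * δ ^ 2 = a0 * (δ ^ 2 - 2 * b0 * δ * k + a0 * k ^ 2) := by
      rw [hD, hβ]
      ring
    rw [e]
    exact dvd_mul_right _ _
  · have h3 : IsCoprime t.1 (R : ℤ) := Int.isCoprime_iff_gcd_eq_one.2 h1
    have h4 : IsCoprime (t.1 ^ 2) (R : ℤ) := h3.pow_left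
    obtain ⟨r, hr⟩ := R_dvd_D
    have e : t.1 ^ 2 + D * t.2.2 ^ 2 = t.1 ^ 2 + (R : ℤ) * (r * t.2.2 ^ 2) := by
      rw [hr]; ring
    rw [e]
    exact IsCoprime.add_mul_left_left_iff.2 h4

omit [Cst] in
/-- real inequalities -/
theorem mem_real {N a b c α β γ Dd ρ₁ ρ₂ C1 l η : ℝ} (hN : 1 ≤ N) (hη : 0 < η)
    (hρ1 : 0 < ρ₁) (hρ : ρ₁ < ρ₂)
    (hα : 0 < α) (ha : N ^ 2 < a) (haC : a ≤ C1 * N ^ 2) (hab : α * b = a * β + Dd * γ)
    (hac : a * c = b ^ 2 + Dd) (hγ : |γ| ≤ (|l| + 1) * N)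
    (h1 : η * N ≤ -β - ρ₁ * α) (h2 : η * N ≤ ρ₂ * α + β)
    (hn1 : |Dd| * (|l| + 1) ≤ η * N) (hn2 : |Dd| < ρ₁ ^ 2 * N) :
    ρ₁ * a ≤ -b ∧ -b ≤ ρ₂ * a ∧ 0 < -b ∧ -b ≤ ρ₂ * C1 * N ^ 2 ∧ 0 < c ∧
      c ≤ (ρ₂ ^ 2 * C1 + |Dd|) * N ^ 2 := by
  have hN0 : 0 < N := by linarith
  have ha1 : 1 ≤ a := by nlinarith
  have ha0 : 0 < a := by linarith
  have hDγ : |Dd * γ| ≤ a * (η * N) := by
    rw [abs_mul]
    calc |Dd| * |γ| ≤ |Dd| * ((|l| + 1) * N) := mul_le_mul_of_nonneg_left hγ (abs_nonneg _)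
      _ = (|Dd| * (|l| + 1)) * N := by ring
      _ ≤ (η * N) * N := mul_le_mul_of_nonneg_right hn1 hN0.le
      _ ≤ a * (η * N) := by
          have : η * N * N ≤ η * N * a := by
            apply mul_le_mul_of_nonneg_left _ (by positivity)
            nlinarith
          linarith
  obtain ⟨hd1, hd2⟩ := abs_le.1 hDγ
  have k1 : ρ₁ * a ≤ -b := by
    have h3 : α * (ρ₁ * a) ≤ α * (-b) := by
      have h4 := mul_le_mul_of_nonneg_left h1 ha0.le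
      have e1 : α * (-b) = -(a * β + Dd * γ) := by rw [← hab]; ring
      have e2 : a * (-β - ρ₁ * α) = -(a * β) - α * (ρ₁ * a) := by ring
      rw [e1]
      rw [e2] at h4
      linarith
    exact le_of_mul_le_mul_left h3 hα
  have k2 : -b ≤ ρ₂ * a := by
    have h3 : α * (-b) ≤ α * (ρ₂ * a) := by
      have h4 := mul_le_mul_of_nonneg_left h2 ha0.le
      have e1 : α * (-b) = -(a * β + Dd * γ) := by rw [← hab]; ring
      have e2 : a * (ρ₂ * α + β) = α * (ρ₂ * a) + a * β := by ring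
      rw [e1]
      rw [e2] at h4
      linarith
    exact le_of_mul_le_mul_left h3 hα
  have hρ2 : 0 < ρ₂ := by linarith
  have k3 : 0 < -b := lt_of_lt_of_le (by positivity) k1
  have k4 : -b ≤ ρ₂ * C1 * N ^ 2 := by
    have h3 := mul_le_mul_of_nonneg_left haC hρ2.le
    have e : ρ₂ * (C1 * N ^ 2) = ρ₂ * C1 * N ^ 2 := by ring
    rw [e] at h3
    linarith
  have hb2 : (ρ₁ * a) ^ 2 ≤ b ^ 2 := by
    have := pow_le_pow_left₀ (by positivity) k1 2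
    rw [neg_sq] at this
    exact this
  have k5 : 0 < c := by
    have h3 : 0 < a * c := by
      rw [hac]
      have h5 : ρ₁ ^ 2 * N ≤ (ρ₁ * a) ^ 2 := by
        rw [mul_pow]
        apply mul_le_mul_of_nonneg_left _ (by positivity)
        nlinarith
      have h6 := neg_abs_le Dd
      linarith
    by_contra hc
    push Not at hc
    nlinarith
  refine ⟨k1, k2, k3, k4, k5, ?_⟩
  have h3 : a * c ≤ a * ((ρ₂ ^ 2 * C1 + |Dd|) * N ^ 2) := by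
    rw [hac]
    have h4 : b ^ 2 ≤ (ρ₂ * a) ^ 2 := by
      have := pow_le_pow_left₀ k3.le k2 2
      rw [neg_sq] at this
      exact this
    have h5 : (ρ₂ * a) ^ 2 ≤ a * (ρ₂ ^ 2 * C1 * N ^ 2) := by
      have h6 := mul_le_mul_of_nonneg_left haC (show 0 ≤ ρ₂ ^ 2 * a by positivity)
      calc (ρ₂ * a) ^ 2 = ρ₂ ^ 2 * a * a := by ring
        _ ≤ ρ₂ ^ 2 * a * (C1 * N ^ 2) := h6
        _ = a * (ρ₂ ^ 2 * C1 * N ^ 2) := by ring
    have h7 : Dd ≤ a * (|Dd| * N ^ 2) := by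
      have h8 : 1 ≤ a * N ^ 2 := by
        have : 1 ≤ N ^ 2 := one_le_pow₀ hN
        nlinarith
      have h9 := mul_le_mul_of_nonneg_left h8 (abs_nonneg Dd)
      have h10 := le_abs_self Dd
      calc Dd ≤ |Dd| * 1 := by linarith
        _ ≤ |Dd| * (a * N ^ 2) := h9
        _ = a * (|Dd| * N ^ 2) := by ring
    have e : a * ((ρ₂ ^ 2 * C1 + |Dd|) * N ^ 2) =
        a * (ρ₂ ^ 2 * C1 * N ^ 2) + a * (|Dd| * N ^ 2) := by ring
    rw [e]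
    linarith
  exact le_of_mul_le_mul_left h3 ha0

/-- the constant of the box -/
noncomputable def cB (i : ℕ) (l : ℤ) : ℝ :=
  ((i : ℝ) + 1) ^ 2 + |(D : ℝ)| * (|(l : ℝ)| + 1) ^ 2

theorem cB_one (i : ℕ) (l : ℤ) : 1 ≤ cB i l := by
  unfold cB
  have h1 : (0 : ℝ) ≤ (i : ℝ) := Nat.cast_nonneg _
  have h2 : 0 ≤ |(D : ℝ)| * (|(l : ℝ)| + 1) ^ 2 := by positivity
  nlinarith

theorem Bx_mem {i : ℕ} {j l : ℤ} (h : NC.BxOk i j l) : ∃ n₀ : ℕ, 1 ≤ n₀ ∧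
    ∀ C1 : ℝ, cB i l ≤ C1 → ∀ n ≥ n₀, ∀ t ∈ NC.Bx i j l n, QQ (emat t) ∈ NC.AW C1 (n ^ 2) := by
  obtain ⟨η, hη, hη1, hη2⟩ : ∃ η : ℝ, 0 < η ∧ η ≤ -((j : ℝ) + 1) - ρ₁ * ((i : ℝ) + 1) ∧
      η ≤ ρ₂ * (i : ℝ) + j := by
    have h1 := h.lo
    have h2 := h.hi
    exact ⟨min (-((j : ℝ) + 1) - ρ₁ * ((i : ℝ) + 1)) (ρ₂ * (i : ℝ) + j),
      lt_min (by linarith) (by linarith), min_le_left _ _, min_le_right _ _⟩
  have hρ := ρ_pos
  have hρ' := ρ_lt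
  obtain ⟨n₀, hn₀⟩ := exists_nat_gt (max (|(D : ℝ)| * (|(l : ℝ)| + 1) / η) (|(D : ℝ)| / ρ₁ ^ 2))
  refine ⟨n₀ + 1, by omega, ?_⟩
  intro C1 hC n hn t ht
  have hn1 : 1 ≤ n := by omega
  have hN : (1 : ℝ) ≤ (n : ℝ) := by exact_mod_cast hn1
  have hnn : (n₀ : ℝ) ≤ (n : ℝ) := by
    have : n₀ ≤ n := by omega
    exact_mod_cast this
  have hq1 : |(D : ℝ)| * (|(l : ℝ)| + 1) ≤ η * n := by
    have h1 := ((le_max_left _ _).trans_lt hn₀).le.trans hnn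
    rw [div_le_iff₀ hη] at h1
    linarith
  have hq2 : |(D : ℝ)| < ρ₁ ^ 2 * n := by
    have h1 := ((le_max_right _ _).trans_lt hn₀).trans_le hnn
    rw [div_lt_iff₀ (by positivity)] at h1
    linarith
  unfold NC.Bx at ht
  obtain ⟨hbox, hg1, hg2⟩ := mem_filter.1 ht
  obtain ⟨hα, hβ, hγ, hd⟩ := mem_EB hbox
  obtain ⟨c1, c2, c3⟩ := form_cls hd hg1 hg2
  have hdet := emat_det hd
  rw [QQ_emat] at c1 c2 c3 ⊢
  set δ := (emat t).2.2.2 with hδ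
  simp only at c1 c2 c3
  set a := t.1 ^ 2 + D * t.2.2 ^ 2 with ha
  set b := t.1 * t.2.1 + D * (t.2.2 * δ) with hb
  set c := t.2.1 ^ 2 + D * δ ^ 2 with hc
  -- the identities
  have hab : t.1 * b = a * t.2.1 + D * t.2.2 := by
    rw [hb, ha]
    linear_combination (D * t.2.2) * hdet
  have hac : a * c = b ^ 2 + D := by
    rw [ha, hb, hc]
    linear_combination (D * (t.1 * δ - t.2.1 * t.2.2 + 1)) * hdet
  -- the sizes
  have α1 : (i : ℝ) * n < t.1 := by exact_mod_cast hα.1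
  have α2 : (t.1 : ℝ) ≤ ((i : ℝ) + 1) * n := by exact_mod_cast hα.2
  have β1 : (j : ℝ) * n < t.2.1 := by exact_mod_cast hβ.1
  have β2 : (t.2.1 : ℝ) ≤ ((j : ℝ) + 1) * n := by exact_mod_cast hβ.2
  have γ1 : (l : ℝ) * n < t.2.2 := by exact_mod_cast hγ.1
  have γ2 : (t.2.2 : ℝ) ≤ ((l : ℝ) + 1) * n := by exact_mod_cast hγ.2
  have hi0 : (0 : ℝ) ≤ (i : ℝ) := Nat.cast_nonneg _
  have hα0 : (0 : ℝ) < t.1 := lt_of_le_of_lt (by positivity) α1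
  have hγa : |(t.2.2 : ℝ)| ≤ (|(l : ℝ)| + 1) * n := by
    rw [abs_le]
    have h1 := mul_le_mul_of_nonneg_right (neg_abs_le (l : ℝ)) (by linarith : (0 : ℝ) ≤ n)
    have h2 := mul_le_mul_of_nonneg_right (le_abs_self (l : ℝ)) (by linarith : (0 : ℝ) ≤ n)
    constructor
    · linarith
    · linarith
  have hbg := box_g h hn1 hγ.1 hγ.2
  have haR : (a : ℝ) = (t.1 : ℝ) ^ 2 + D * (t.2.2 : ℝ) ^ 2 := by
    rw [ha]; push_cast; ring
  have ha1 : (n : ℝ) ^ 2 < a := by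
    rw [haR]
    have h1 : ((i : ℝ) * n) ^ 2 ≤ (t.1 : ℝ) ^ 2 :=
      pow_le_pow_left₀ (by positivity) α1.le 2
    rw [mul_pow] at h1
    linarith
  have ha2 : (a : ℝ) ≤ C1 * (n : ℝ) ^ 2 := by
    rw [haR]
    have h1 : (t.1 : ℝ) ^ 2 ≤ (((i : ℝ) + 1) * n) ^ 2 := pow_le_pow_left₀ hα0.le α2 2
    have h2 : (t.2.2 : ℝ) ^ 2 ≤ ((|(l : ℝ)| + 1) * n) ^ 2 := by
      rw [← sq_abs (t.2.2 : ℝ)]
      exact pow_le_pow_left₀ (abs_nonneg _) hγa 2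
    have h3 : (D : ℝ) * (t.2.2 : ℝ) ^ 2 ≤ |(D : ℝ)| * ((|(l : ℝ)| + 1) * n) ^ 2 :=
      (mul_le_mul_of_nonneg_right (le_abs_self _) (sq_nonneg _)).trans
        (mul_le_mul_of_nonneg_left h2 (abs_nonneg _))
    have h4 : cB i l * (n : ℝ) ^ 2 ≤ C1 * (n : ℝ) ^ 2 :=
      mul_le_mul_of_nonneg_right hC (by positivity)
    unfold cB at h4
    have e : (((i : ℝ) + 1) ^ 2 + |(D : ℝ)| * (|(l : ℝ)| + 1) ^ 2) * (n : ℝ) ^ 2 =
        (((i : ℝ) + 1) * n) ^ 2 + |(D : ℝ)| * ((|(l : ℝ)| + 1) * n) ^ 2 := by ring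
    rw [e] at h4
    linarith
  have hbR : (t.1 : ℝ) * b = a * t.2.1 + D * t.2.2 := by exact_mod_cast hab
  have hcR : (a : ℝ) * c = (b : ℝ) ^ 2 + D := by exact_mod_cast hac
  have m1 : η * n ≤ -(t.2.1 : ℝ) - ρ₁ * t.1 := by
    have h1 := mul_le_mul_of_nonneg_right hη1 (by linarith : (0 : ℝ) ≤ n)
    have h2 := mul_le_mul_of_nonneg_left α2 hρ.le
    linarith
  have m2 : η * n ≤ ρ₂ * (t.1 : ℝ) + t.2.1 := by
    have h1 := mul_le_mul_of_nonneg_right hη2 (by linarith : (0 : ℝ) ≤ n)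
    have h2 := mul_le_mul_of_nonneg_left α1.le (hρ.trans hρ').le
    linarith
  obtain ⟨r1, r2, r3, r4, r5, r6⟩ := mem_real (l := (l : ℝ))
    hN hη hρ hρ' hα0 ha1 ha2 hbR hcR hγa m1 m2 hq1 hq2
  unfold NC.AW
  rw [mem_filter, mem_product, mem_product, mem_Ioc, mem_Icc, mem_Icc]
  have hXR : (((n ^ 2 : ℕ) : ℝ)) = (n : ℝ) ^ 2 := by push_cast; ring
  refine ⟨⟨⟨?_, ?_⟩, ⟨?_, ?_⟩, ?_, ?_⟩, ?_, r1, r2, c1, c2, c3⟩
  · have : (((n ^ 2 : ℕ) : ℤ) : ℝ) < (a : ℝ) := by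
      push_cast
      exact ha1
    exact_mod_cast this
  · apply Int.le_floor.2
    rw [hXR]
    exact ha2
  · have h1 : -b ≤ ⌊ρ₂ * C1 * ((n ^ 2 : ℕ) : ℝ)⌋ := by
      apply Int.le_floor.2
      rw [hXR]
      push_cast
      exact r4
    show -⌊ρ₂ * C1 * ((n ^ 2 : ℕ) : ℝ)⌋ ≤ b
    linarith
  · have h1 : (0 : ℤ) < -b := by exact_mod_cast r3
    show b ≤ -1
    linarith
  · have h1 : (0 : ℤ) < c := by exact_mod_cast r5
    show 1 ≤ c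
    linarith
  · apply Int.le_floor.2
    rw [hXR]
    exact r6
  · show a * c - b ^ 2 = D
    rw [hac]
    ring

end Pool.Agent.AQ.CV
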