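import Pool.Agent.Lib_helper96.AQC.CB2
import Pool.Agent.Lib_helper96.AQC.CC2

/-!
# AQ (MP_892e4c_nt, all quadratics): (COV) for the admissible boxes (helper96)
-/

set_option autoImplicit false

namespace Pool.Agent.AQ.CV

open Finset Pool.Agent.PENT Pool.Agent.PENT.EQ

variable [Cst]

/-- **(COV)** for every admissible box and every large `C1` -/
theorem cov_large {i : ℕ} {j l : ℤ} (h : NC.BxOk i j l) :
    ∀ C1 : ℝ, cB i l ≤ C1 → NC.COV i j l C1 := by
  classical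
  intro C1 hC
  have hi : 1 ≤ i := le_trans (by norm_num) h.i2
  obtain ⟨c, n₁, hc, hc1, H⟩ := eq_box i hi j l
  obtain ⟨n₂, hn₂, H2⟩ := Bx_mem h
  refine ⟨c, max n₁ n₂, hc, hc1, ?_⟩
  intro n hn
  have h1 : n ≥ n₁ := (le_max_left _ _).trans hn
  have h2 : n ≥ n₂ := (le_max_right _ _).trans hn
  have hinj := QQ_inj h (hn₂.trans h2)
  have hC1 : 1 ≤ C1 := (cB_one i l).trans hC
  refine ⟨?_, ?_, ?_⟩
  · intro q hq
    unfold NC.BO at hq
    obtain ⟨t, ht, rfl⟩ := mem_image.1 hq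
    exact H2 C1 hC n h2 t ht
  · have h3 : (NC.BO i j l n).card ≤ n ^ 2 :=
      (Finset.card_image_le).trans (card_Bx hi n)
    have h4 : ((NC.BO i j l n).card : ℝ) ≤ (n : ℝ) ^ 2 := by exact_mod_cast h3
    have h5 : 0 ≤ (n : ℝ) ^ 2 := by positivity
    nlinarith
  · intro T hT hcop hL f hper h01
    have h3 := H n h1 T hT hcop hL f hper h01
    have e1 : ∑ t ∈ NC.BO i j l n, ∏ m ∈ T, f m t =
        ∑ t ∈ NC.Bx i j l n, ∏ m ∈ T, f m (QQ (emat t)) := by
      unfold NC.BO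
      exact Finset.sum_image hinj
    have e2 : (NC.BO i j l n).card = (NC.Bx i j l n).card := by
      unfold NC.BO
      exact Finset.card_image_of_injOn hinj
    rw [e1, e2]
    exact h3

/-- **(COV)** for every admissible box -/
theorem cov_all {i : ℕ} {j l : ℤ} (h : NC.BxOk i j l) : ∃ C1 : ℝ, 1 ≤ C1 ∧ NC.COV i j l C1 :=
  ⟨cB i l, cB_one i l, cov_large h _ le_rfl⟩

end Pool.Agent.AQ.CV
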