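import Mathlib
import Pool.Agent.Lib_helper39.PEQF.GB1

/-!
# AQ (MP_892e4c_nt, all quadratics): COV for the boxes (helper96)

CA1: every unit modulo an odd `m` prime to `E` is `x² + E y²`.
-/

set_option autoImplicit false

namespace Pool.Agent.AQ.CV

open Finset

theorem ca1_prime (p : ℕ) (hp : p.Prime) (h2 : p ≠ 2) (E a : ℤ) (hE : ¬ (p : ℤ) ∣ E) :
    ∃ x y : ℤ, (p : ℤ) ∣ x ^ 2 + E * y ^ 2 - a := by
  have : Fact p.Prime := ⟨hp⟩
  have hE' : ((E : ℤ) : ZMod p) ≠ 0 := by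
    intro h
    exact hE ((ZMod.intCast_zmod_eq_zero_iff_dvd _ _).1 h)
  have hf : (Polynomial.X ^ 2 - Polynomial.C ((a : ℤ) : ZMod p)).degree = 2 := by
    exact Polynomial.degree_X_pow_sub_C (by norm_num) _
  have hg : (Polynomial.C ((E : ℤ) : ZMod p) * Polynomial.X ^ 2).degree = 2 :=
    Polynomial.degree_C_mul_X_pow 2 hE'
  have hR : Fintype.card (ZMod p) % 2 = 1 := by
    rw [ZMod.card]
    exact (hp.eq_two_or_odd).resolve_left h2
  obtain ⟨x, y, hxy⟩ := FiniteField.exists_root_sum_quadratic hf hg hR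
  refine ⟨(x.val : ℤ), (y.val : ℤ), ?_⟩
  rw [← ZMod.intCast_zmod_eq_zero_iff_dvd]
  have e1 : ((x.val : ℤ) : ZMod p) = x := by
    rw [Int.cast_natCast, ZMod.natCast_zmod_val]
  have e2 : ((y.val : ℤ) : ZMod p) = y := by
    rw [Int.cast_natCast, ZMod.natCast_zmod_val]
  rw [Int.cast_sub, Int.cast_add, Int.cast_mul, Int.cast_pow, Int.cast_pow, e1, e2]
  simp only [Polynomial.eval_sub, Polynomial.eval_pow, Polynomial.eval_X, Polynomial.eval_C,
    Polynomial.eval_mul] at hxy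
  linear_combination hxy

/-- a linear congruence -/
theorem ca1_lin {p : ℕ} (hp : p.Prime) {b : ℤ} (hb : ¬ (p : ℤ) ∣ b) (s : ℤ) :
    ∃ t : ℤ, (p : ℤ) ∣ s + b * t := by
  have hpp : Prime (p : ℤ) := Nat.prime_iff_prime_int.1 hp
  have hc : IsCoprime (p : ℤ) b := (Prime.coprime_iff_not_dvd hpp).2 hb
  obtain ⟨u, v, huv⟩ := hc
  refine ⟨-(s * v), s * u, ?_⟩
  linear_combination (-s) * huv

theorem ca1_pow (p : ℕ) (hp : p.Prime) (h2 : p ≠ 2) (E a : ℤ) (hE : ¬ (p : ℤ) ∣ E)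
    (ha : ¬ (p : ℤ) ∣ a) (k : ℕ) :
    ∃ x y : ℤ, ((p : ℤ) ^ (k + 1)) ∣ x ^ 2 + E * y ^ 2 - a := by
  have hpp : Prime (p : ℤ) := Nat.prime_iff_prime_int.1 hp
  have hp2 : ¬ (p : ℤ) ∣ 2 := by
    intro hd
    have hd' : p ∣ 2 := by exact_mod_cast hd
    exact h2 ((Nat.prime_dvd_prime_iff_eq hp Nat.prime_two).1 hd')
  induction k with
  | zero =>
    obtain ⟨x, y, h⟩ := ca1_prime p hp h2 E a hE
    exact ⟨x, y, by rw [zero_add, pow_one]; exact h⟩
  | succ k ih =>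
    obtain ⟨x, y, s, hs⟩ := ih
    have hsplit : ((p : ℤ) ^ (k + 1 + 1)) = (p : ℤ) ^ (k + 1) * p := pow_succ _ _
    by_cases hx : (p : ℤ) ∣ x
    · -- `p ∤ y`
      have hy : ¬ (p : ℤ) ∣ y := by
        intro hy
        apply ha
        have e : a = x * x + E * y * y - p ^ (k + 1) * s := by linear_combination -hs
        rw [e]
        refine dvd_sub (dvd_add (hx.mul_right _) (hy.mul_left _)) ?_
        rw [pow_succ, mul_assoc, mul_comm, mul_assoc]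
        exact dvd_mul_right _ _
      have hb : ¬ (p : ℤ) ∣ 2 * (E * y) := by
        intro h
        rcases hpp.dvd_or_dvd h with h | h
        · exact hp2 h
        · rcases hpp.dvd_or_dvd h with h | h
          · exact hE h
          · exact hy h
      obtain ⟨t, r, hr⟩ := ca1_lin hp hb s
      refine ⟨x, y + (p : ℤ) ^ (k + 1) * t, r + E * (p ^ k * t ^ 2), ?_⟩
      rw [hsplit]
      have e : x ^ 2 + E * (y + (p : ℤ) ^ (k + 1) * t) ^ 2 - a =
          (x ^ 2 + E * y ^ 2 - a) + (p : ℤ) ^ (k + 1) * (2 * (E * y) * t) +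
            E * ((p : ℤ) ^ (k + 1)) ^ 2 * t ^ 2 := by ring
      rw [e, hs]
      have e2 : (p : ℤ) ^ (k + 1) * s + (p : ℤ) ^ (k + 1) * (2 * (E * y) * t) =
          (p : ℤ) ^ (k + 1) * (p * r) := by
        rw [← hr]; ring
      rw [e2]
      ring
    · have hb : ¬ (p : ℤ) ∣ 2 * x := by
        intro h
        rcases hpp.dvd_or_dvd h with h | h
        · exact hp2 h
        · exact hx h
      obtain ⟨t, r, hr⟩ := ca1_lin hp hb s
      refine ⟨x + (p : ℤ) ^ (k + 1) * t, y, r + (p ^ k * t ^ 2), ?_⟩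
      rw [hsplit]
      have e : (x + (p : ℤ) ^ (k + 1) * t) ^ 2 + E * y ^ 2 - a =
          (x ^ 2 + E * y ^ 2 - a) + (p : ℤ) ^ (k + 1) * (2 * x * t) +
            ((p : ℤ) ^ (k + 1)) ^ 2 * t ^ 2 := by ring
      rw [e, hs]
      have e2 : (p : ℤ) ^ (k + 1) * s + (p : ℤ) ^ (k + 1) * (2 * x * t) =
          (p : ℤ) ^ (k + 1) * (p * r) := by
        rw [← hr]; ring
      rw [e2]
      ring

theorem ca1_mul (m n : ℕ) (h : Nat.Coprime m n) (E a : ℤ)
    (hm : ∃ x y : ℤ, (m : ℤ) ∣ x ^ 2 + E * y ^ 2 - a)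
    (hn : ∃ x y : ℤ, (n : ℤ) ∣ x ^ 2 + E * y ^ 2 - a) :
    ∃ x y : ℤ, ((m * n : ℕ) : ℤ) ∣ x ^ 2 + E * y ^ 2 - a := by
  obtain ⟨x, y, h1⟩ := hm
  obtain ⟨x', y', h2⟩ := hn
  have hc : IsCoprime (m : ℤ) (n : ℤ) := Nat.isCoprime_iff_coprime.2 h
  have hc' := hc
  obtain ⟨u, v, huv⟩ := hc
  have key : ∀ s t : ℤ, ∃ r : ℤ, (m : ℤ) ∣ r - s ∧ (n : ℤ) ∣ r - t := by
    intro s t
    refine ⟨s * (v * n) + t * (u * m), ⟨u * (t - s), ?_⟩, ⟨v * (s - t), ?_⟩⟩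
    · linear_combination s * huv
    · linear_combination t * huv
  obtain ⟨X, hX1, hX2⟩ := key x x'
  obtain ⟨Y, hY1, hY2⟩ := key y y'
  refine ⟨X, Y, ?_⟩
  push_cast
  refine hc'.mul_dvd ?_ ?_
  · have e : X ^ 2 + E * Y ^ 2 - a = (x ^ 2 + E * y ^ 2 - a) + (X ^ 2 - x ^ 2) +
        E * (Y ^ 2 - y ^ 2) := by ring
    rw [e]
    exact dvd_add (dvd_add h1 (PENT.EQ.gb1_sq hX1)) ((PENT.EQ.gb1_sq hY1).mul_left _)
  · have e : X ^ 2 + E * Y ^ 2 - a = (x' ^ 2 + E * y' ^ 2 - a) + (X ^ 2 - x' ^ 2) +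
        E * (Y ^ 2 - y' ^ 2) := by ring
    rw [e]
    exact dvd_add (dvd_add h2 (PENT.EQ.gb1_sq hX2)) ((PENT.EQ.gb1_sq hY2).mul_left _)

/-- units modulo an odd `m` prime to `E` are `x² + E y²` -/
theorem unit_rep (E a : ℤ) (m : ℕ) : Odd m → IsCoprime E (m : ℤ) → IsCoprime a (m : ℤ) →
    ∃ x y : ℤ, (m : ℤ) ∣ x ^ 2 + E * y ^ 2 - a := by
  induction m using Nat.recOnPosPrimePosCoprime with
  | zero =>
    intro h
    exact absurd h (by decide)
  | one =>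
    intro _ _ _
    exact ⟨0, 0, by norm_num⟩
  | prime_pow p n hp hn =>
    intro h1 h2 h3
    obtain ⟨k, rfl⟩ := Nat.exists_eq_succ_of_ne_zero hn.ne'
    have hpp : Prime (p : ℤ) := Nat.prime_iff_prime_int.1 hp
    have hpd : (p : ℤ) ∣ ((p ^ (k + 1) : ℕ) : ℤ) := by
      rw [pow_succ]
      push_cast
      exact dvd_mul_left _ _
    have hcop : ∀ b : ℤ, IsCoprime b ((p ^ (k + 1) : ℕ) : ℤ) → ¬ (p : ℤ) ∣ b := by
      intro b hb hd
      exact hpp.not_isUnit (hb.isUnit_of_dvd' hd hpd)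
    have hp2 : p ≠ 2 := by
      rintro rfl
      have : Even (2 ^ (k + 1)) := by
        rw [Nat.even_pow]
        exact ⟨even_two, by omega⟩
      exact (Nat.not_odd_iff_even.2 this) h1
    obtain ⟨x, y, h⟩ := ca1_pow p hp hp2 E a (hcop E h2) (hcop a h3) k
    refine ⟨x, y, ?_⟩
    push_cast
    exact h
  | coprime m n hm hn hmn ihm ihn =>
    intro h1 h2 h3
    have h1' := Nat.odd_mul.1 h1
    push_cast at h2 h3
    exact ca1_mul m n hmn E a
      (ihm h1'.1 h2.of_mul_right_left h3.of_mul_right_left)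
      (ihn h1'.2 h2.of_mul_right_right h3.of_mul_right_right)

end Pool.Agent.AQ.CV
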