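import Pool.Agent.Lib_helper8.AQ.Base
import Pool.Agent.Lib_helper96.AQC.CA1

/-!
# AQ: COV for the boxes (helper96): every form of determinant `D` modulo `m`, `(m, R) = 1`, is the form of a
matrix
-/

set_option autoImplicit false

namespace Pool.Agent.AQ.CV

open Finset Pool.Agent.PENT Pool.Agent.PENT.EQ

theorem ca3_local (p : ℕ) (hp : p.Prime) (hodd : p ≠ 2) (E a b c : ℤ) (hE : ¬ (p : ℤ) ∣ E)
    (h : (p : ℤ) ∣ a * c - b ^ 2 - E) : ∃ t : ℤ, ¬ (p : ℤ) ∣ a + 2 * b * t + c * t ^ 2 := by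
  by_contra hcon
  push Not at hcon
  have h0 := hcon 0
  have h1 := hcon 1
  have h2 := hcon 2
  have hpp : Prime (p : ℤ) := Nat.prime_iff_prime_int.mp hp
  have hp2 : ¬ (p : ℤ) ∣ 2 := by
    intro hd
    have hd' : p ∣ 2 := by exact_mod_cast hd
    exact hodd ((Nat.prime_dvd_prime_iff_eq hp Nat.prime_two).mp hd')
  have h2c : (p : ℤ) ∣ 2 * c := by
    have e : 2 * c = (a + 2 * b * 2 + c * 2 ^ 2) - 2 * (a + 2 * b * 1 + c * 1 ^ 2) +
        (a + 2 * b * 0 + c * 0 ^ 2) := by ring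
    rw [e]
    exact dvd_add (dvd_sub h2 (Dvd.dvd.mul_left h1 2)) h0
  have hc : (p : ℤ) ∣ c := (hpp.dvd_or_dvd h2c).resolve_left hp2
  have h2b : (p : ℤ) ∣ 2 * b := by
    have e : 2 * b = (a + 2 * b * 1 + c * 1 ^ 2) - (a + 2 * b * 0 + c * 0 ^ 2) - c := by ring
    rw [e]
    exact dvd_sub (dvd_sub h1 h0) hc
  have hb : (p : ℤ) ∣ b := (hpp.dvd_or_dvd h2b).resolve_left hp2
  apply hE
  have e : (E : ℤ) = a * c - b * b - (a * c - b ^ 2 - E) := by ring
  rw [e]
  exact dvd_sub (dvd_sub (Dvd.dvd.mul_left hc a) (Dvd.dvd.mul_left hb b)) h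

/-- a form of determinant `E` takes a unit value at some `(1, t)` -/
theorem unit_value (m : ℕ) (hm : Odd m) (E a b c : ℤ) (hE : IsCoprime E (m : ℤ))
    (h : (m : ℤ) ∣ a * c - b ^ 2 - E) :
    ∃ t : ℤ, IsCoprime (a + 2 * b * t + c * t ^ 2) (m : ℤ) := by
  obtain ⟨t, ht⟩ := ga2_crt a b c m.primeFactors (fun p hp => Nat.prime_of_mem_primeFactors hp)
    (fun p hp => by
      have hpp := Nat.prime_of_mem_primeFactors hp
      have hpm := Nat.dvd_of_mem_primeFactors hp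
      refine ca3_local p hpp ?_ E a b c ?_ ((Int.natCast_dvd_natCast.mpr hpm).trans h)
      · rintro rfl
        have h1 := hm.of_dvd_nat hpm
        exact absurd h1 (by decide)
      · intro hd
        exact (Nat.prime_iff_prime_int.mp hpp).not_isUnit
          (hE.isUnit_of_dvd' hd (Int.natCast_dvd_natCast.mpr hpm)))
  refine ⟨t, ?_⟩
  rw [Int.isCoprime_iff_gcd_eq_one]
  by_contra hg
  obtain ⟨p, hp, hpd⟩ := Nat.exists_prime_and_dvd hg
  have h1 : (p : ℤ) ∣ a + 2 * b * t + c * t ^ 2 :=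
    (Int.natCast_dvd_natCast.mpr hpd).trans (Int.gcd_dvd_left ..)
  have h2 : (p : ℤ) ∣ (m : ℤ) := (Int.natCast_dvd_natCast.mpr hpd).trans (Int.gcd_dvd_right ..)
  have h3 : p ∣ m := Int.natCast_dvd_natCast.mp h2
  have hm0 : m ≠ 0 := by
    rintro rfl
    exact absurd hm (by decide)
  exact ht p (Nat.mem_primeFactors.mpr ⟨hp, h3, hm0⟩) h1

/-- the computation in a commutative ring -/
theorem ca3_ring {S : Type} [CommRing S] (E a b c t x y u : S) (h : a * c - b ^ 2 - E = 0)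
    (hS : x ^ 2 + E * y ^ 2 - (a + 2 * b * t + c * t ^ 2) = 0)
    (hU : u * (a + 2 * b * t + c * t ^ 2) - 1 = 0) :
    (x - t * ((x * (b + c * t) - E * y) * u)) * ((y * (b + c * t) + x) * u) -
        ((x * (b + c * t) - E * y) * u) * (y - t * ((y * (b + c * t) + x) * u)) - 1 = 0 ∧
      (x - t * ((x * (b + c * t) - E * y) * u)) ^ 2 +
        E * (y - t * ((y * (b + c * t) + x) * u)) ^ 2 - a = 0 ∧
      (x - t * ((x * (b + c * t) - E * y) * u)) * ((x * (b + c * t) - E * y) * u) +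
        E * ((y - t * ((y * (b + c * t) + x) * u)) * ((y * (b + c * t) + x) * u)) - b = 0 ∧
      ((x * (b + c * t) - E * y) * u) ^ 2 + E * ((y * (b + c * t) + x) * u) ^ 2 - c = 0 := by
  have hH : (a + 2 * b * t + c * t ^ 2) * c - (b + c * t) ^ 2 - E = 0 := by
    linear_combination h
  have e0 : x * ((y * (b + c * t) + x) * u) - ((x * (b + c * t) - E * y) * u) * y - 1 = 0 := by
    linear_combination u * hS + hU
  have e1 : x * ((x * (b + c * t) - E * y) * u) + E * (y * ((y * (b + c * t) + x) * u)) -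
      (b + c * t) = 0 := by
    linear_combination (u * (b + c * t)) * hS + (b + c * t) * hU
  have e2 : ((x * (b + c * t) - E * y) * u) ^ 2 + E * ((y * (b + c * t) + x) * u) ^ 2 - c = 0 := by
    linear_combination (u ^ 2 * ((b + c * t) ^ 2 + E)) * hS + (u * ((b + c * t) ^ 2 + E)) * hU +
      c * hU - u * hH
  set β := (x * (b + c * t) - E * y) * u with hβ
  set δ := (y * (b + c * t) + x) * u with hδ
  refine ⟨?_, ?_, ?_, e2⟩
  · linear_combination e0
  · linear_combination hS - 2 * t * e1 + t ^ 2 * e2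
  · linear_combination e1 - t * e2

/-- every form of determinant `E` modulo an odd `m` prime to `E` is the form of a matrix -/
theorem form_surj (m : ℕ) (hm : Odd m) (E a b c : ℤ) (hE : IsCoprime E (m : ℤ))
    (h : (m : ℤ) ∣ a * c - b ^ 2 - E) :
    ∃ α β γ δ : ℤ, (m : ℤ) ∣ α * δ - β * γ - 1 ∧ (m : ℤ) ∣ α ^ 2 + E * γ ^ 2 - a ∧
      (m : ℤ) ∣ α * β + E * (γ * δ) - b ∧ (m : ℤ) ∣ β ^ 2 + E * δ ^ 2 - c := by
  obtain ⟨t, ht⟩ := unit_value m hm E a b c hE h
  obtain ⟨x, y, hxy⟩ := unit_rep E _ m hm hE ht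
  obtain ⟨u, v, huv⟩ := ht
  have h1 : ((a : ZMod m)) * c - b ^ 2 - E = 0 := by
    have := (ZMod.intCast_zmod_eq_zero_iff_dvd _ _).2 h
    push_cast at this
    exact this
  have h2 : ((x : ZMod m)) ^ 2 + E * y ^ 2 - (a + 2 * b * t + c * t ^ 2) = 0 := by
    have := (ZMod.intCast_zmod_eq_zero_iff_dvd _ _).2 hxy
    push_cast at this
    exact this
  have h3 : ((u : ZMod m)) * (a + 2 * b * t + c * t ^ 2) - 1 = 0 := by
    have h4 := congrArg (fun z : ℤ => (z : ZMod m)) huv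
    push_cast at h4
    rw [ZMod.natCast_self, mul_zero, add_zero] at h4
    rw [h4, sub_self]
  obtain ⟨g1, g2, g3, g4⟩ := ca3_ring (E : ZMod m) a b c t x y u h1 h2 h3
  refine ⟨x - t * ((x * (b + c * t) - E * y) * u), (x * (b + c * t) - E * y) * u,
    y - t * ((y * (b + c * t) + x) * u), (y * (b + c * t) + x) * u, ?_, ?_, ?_, ?_⟩
  · rw [← ZMod.intCast_zmod_eq_zero_iff_dvd]
    push_cast
    exact g1
  · rw [← ZMod.intCast_zmod_eq_zero_iff_dvd]
    push_cast
    exact g2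
  · rw [← ZMod.intCast_zmod_eq_zero_iff_dvd]
    push_cast
    exact g3
  · rw [← ZMod.intCast_zmod_eq_zero_iff_dvd]
    push_cast
    exact g4

variable [Cst]

/-- a modulus prime to `R` is odd and prime to `D` -/
theorem odd_of_copR {m : ℕ} (h : Nat.Coprime m R) : Odd m := odd_of_cop h

theorem copD_of_copR {m : ℕ} (h : Nat.Coprime m R) : IsCoprime D (m : ℤ) := by
  rw [Int.isCoprime_iff_gcd_eq_one]
  by_contra hg
  obtain ⟨p, hp, hpd⟩ := Nat.exists_prime_and_dvd hg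
  have h1 : (p : ℤ) ∣ D := (Int.natCast_dvd_natCast.mpr hpd).trans (Int.gcd_dvd_left ..)
  have h2 : (p : ℤ) ∣ (m : ℤ) := (Int.natCast_dvd_natCast.mpr hpd).trans (Int.gcd_dvd_right ..)
  have h3 : p ∣ m := Int.natCast_dvd_natCast.mp h2
  have h4 : p ∣ R := prime_dvd_D hp h1
  exact Nat.not_coprime_of_dvd_of_dvd hp.one_lt h3 h4 h

end Pool.Agent.AQ.CV
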