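import Pool.Agent.Lib_helper8.AQ.NCDefs
import Pool.Agent.Lib_helper39.PEQF.ED3
import Pool.Agent.Lib_helper39.PEQF.EF2
import Pool.Agent.Lib_helper39.PEQF.GB1
import Pool.Agent.Lib_helper96.AQC.CA4

/-!
# AQ: COV for the boxes (helper96): equidistribution of the box `Bx`
-/

set_option autoImplicit false

namespace Pool.Agent.AQ.CV

open Finset Pool.Agent.PENT Pool.Agent.PENT.EQ

variable [Cst]

theorem cb1_per (m : ℕ) (h : ℤ × ℤ × ℤ → ℝ) (hh : Per3 m h) : Per m (fun g => h (QQ g)) := by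
  intro g g' h1 h2 h3 h4
  apply hh
  · show (m : ℤ) ∣ (g.1 ^ 2 + D * g.2.2.1 ^ 2) - (g'.1 ^ 2 + D * g'.2.2.1 ^ 2)
    have e : (g.1 ^ 2 + D * g.2.2.1 ^ 2) - (g'.1 ^ 2 + D * g'.2.2.1 ^ 2) =
        (g.1 ^ 2 - g'.1 ^ 2) + D * (g.2.2.1 ^ 2 - g'.2.2.1 ^ 2) := by ring
    rw [e]
    exact dvd_add (gb1_sq h1) ((gb1_sq h3).mul_left _)
  · show (m : ℤ) ∣ (g.1 * g.2.1 + D * (g.2.2.1 * g.2.2.2)) -
      (g'.1 * g'.2.1 + D * (g'.2.2.1 * g'.2.2.2))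
    have e : (g.1 * g.2.1 + D * (g.2.2.1 * g.2.2.2)) -
        (g'.1 * g'.2.1 + D * (g'.2.2.1 * g'.2.2.2)) =
        (g.1 * g.2.1 - g'.1 * g'.2.1) + D * (g.2.2.1 * g.2.2.2 - g'.2.2.1 * g'.2.2.2) := by ring
    rw [e]
    exact dvd_add (gb1_mul h1 h2) ((gb1_mul h3 h4).mul_left _)
  · show (m : ℤ) ∣ (g.2.1 ^ 2 + D * g.2.2.2 ^ 2) - (g'.2.1 ^ 2 + D * g'.2.2.2 ^ 2)
    have e : (g.2.1 ^ 2 + D * g.2.2.2 ^ 2) - (g'.2.1 ^ 2 + D * g'.2.2.2 ^ 2) =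
        (g.2.1 ^ 2 - g'.2.1 ^ 2) + D * (g.2.2.2 ^ 2 - g'.2.2.2 ^ 2) := by ring
    rw [e]
    exact dvd_add (gb1_sq h2) ((gb1_sq h4).mul_left _)

theorem cb1_per_prod (T : Finset ℕ) (M : ℕ) (hM : ∀ m ∈ T, m ∣ M) (h : ℕ → ℤ × ℤ × ℤ → ℝ)
    (hh : ∀ m ∈ T, Per3 m (h m)) : Per M (fun g => ∏ m ∈ T, h m (QQ g)) := by
  intro g g' h1 h2 h3 h4
  refine Finset.prod_congr rfl fun m hm => ?_
  exact gb1_per_dvd m M (hM m hm) _ (cb1_per m (h m) (hh m hm)) g g' h1 h2 h3 h4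

theorem cb1_pos {m : ℕ} (h : Nat.Coprime m R) : m ≠ 0 := by
  rintro rfl
  exact absurd (odd_of_copR h) (by decide)

theorem cb1_EM (T : Finset ℕ) : (∀ m ∈ T, Nat.Coprime m R) →
    (∀ m ∈ T, ∀ m' ∈ T, m ≠ m' → Nat.Coprime m m') → ∀ h : ℕ → ℤ × ℤ × ℤ → ℝ,
    (∀ m ∈ T, Per3 m (h m)) → ∀ M : ℕ, M = ∏ m ∈ T, m → ∀ _ : NeZero M,
    EM M (fun g => ∏ m ∈ T, h m (QQ g)) = ∏ m ∈ T, MV m (h m) := by
  classical
  induction T using Finset.induction_on with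
  | empty =>
    intro _ _ h _ M hM inst
    have hM1 : M = 1 := by rw [hM, Finset.prod_empty]
    subst hM1
    simp only [Finset.prod_empty]
    unfold EM
    have hne : ((SLM 1).card : ℝ) ≠ 0 := by
      have h1 : (0 : ℕ) < (SLM 1).card := ed3_pos 1
      exact_mod_cast h1.ne'
    rw [Finset.sum_const, nsmul_eq_mul, mul_one]
    exact div_self hne
  | insert a T ha ih =>
    intro hodd hcop h hper M hM inst
    rw [Finset.prod_insert ha] at hM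
    subst hM
    have ha0 : Nat.Coprime a R := hodd a (mem_insert_self a T)
    have haz : NeZero a := ⟨cb1_pos ha0⟩
    have hMz : NeZero (∏ m ∈ T, m) := ⟨by
      intro h0
      exact inst.out (by rw [h0, mul_zero])⟩
    have hc : Nat.Coprime a (∏ m ∈ T, m) := by
      apply Nat.Coprime.prod_right
      intro m hm
      refine hcop a (mem_insert_self a T) m (mem_insert_of_mem hm) ?_
      rintro rfl
      exact ha hm
    have hPT : Per (∏ m ∈ T, m) (fun g => ∏ m ∈ T, h m (QQ g)) :=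
      cb1_per_prod T _ (fun m hm => Finset.dvd_prod_of_mem _ hm) h
        (fun m hm => hper m (mem_insert_of_mem hm))
    have hPa : Per a (fun g => h a (QQ g)) := cb1_per a (h a) (hper a (mem_insert_self a T))
    have e1 : (fun g : ℤ × ℤ × ℤ × ℤ => ∏ m ∈ insert a T, h m (QQ g)) =
        fun g => (fun g => h a (QQ g)) g * (fun g => ∏ m ∈ T, h m (QQ g)) g := by
      funext g
      rw [Finset.prod_insert ha]
    rw [e1, EM_mul a (∏ m ∈ T, m) _ _ hPa hPT hc, Finset.prod_insert ha,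
      EM_form a ha0 (h a) (hper a (mem_insert_self a T)),
      ih (fun m hm => hodd m (mem_insert_of_mem hm))
        (fun m hm m' hm' => hcop m (mem_insert_of_mem hm) m' (mem_insert_of_mem hm')) h
        (fun m hm => hper m (mem_insert_of_mem hm)) _ rfl hMz]

open Classical in
/-- the class condition of `Bx` as a weight -/
noncomputable def ck (g : ℤ × ℤ × ℤ × ℤ) : ℝ :=
  if Int.gcd g.1 (R : ℤ) = 1 ∧ g.2.1 % a0 = b0 * g.2.2.2 % a0 then 1 else 0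

theorem ck01 (g : ℤ × ℤ × ℤ × ℤ) : 0 ≤ ck g ∧ ck g ≤ 1 := by
  unfold ck
  split_ifs <;> norm_num

/-- the modulus `a0` -/
def M0 : ℕ := a0.natAbs

theorem M0_eq : ((M0 : ℕ) : ℤ) = a0 := by
  unfold M0
  exact Int.natAbs_of_nonneg a0_pos.le

theorem M0_pos : 0 < M0 := by
  have h := a0_pos
  rw [← M0_eq] at h
  exact_mod_cast h

theorem ck_per : Per M0 ck := by
  intro g h h1 h2 h3 h4
  rw [M0_eq] at h1 h2 h3 h4
  have k1 : Int.gcd g.1 (R : ℤ) = 1 ↔ Int.gcd h.1 (R : ℤ) = 1 := by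
    rw [← Int.isCoprime_iff_gcd_eq_one, ← Int.isCoprime_iff_gcd_eq_one]
    obtain ⟨k, hk⟩ := R_dvd_a0.trans h1
    have e : g.1 = h.1 + (R : ℤ) * k := by linarith
    rw [e]
    exact IsCoprime.add_mul_left_left_iff
  have k2 : g.2.1 % a0 = b0 * g.2.2.2 % a0 ↔ h.2.1 % a0 = b0 * h.2.2.2 % a0 := by
    have e1 : g.2.1 % a0 = h.2.1 % a0 := Int.modEq_iff_dvd.2 (by rw [dvd_sub_comm]; exact h2)
    have e2 : b0 * g.2.2.2 % a0 = b0 * h.2.2.2 % a0 := by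
      apply Int.modEq_iff_dvd.2
      have e : b0 * h.2.2.2 - b0 * g.2.2.2 = b0 * (h.2.2.2 - g.2.2.2) := by ring
      rw [e]
      exact (dvd_sub_comm.1 h4).mul_left _
    rw [e1, e2]
  unfold ck
  exact if_congr (and_congr k1 k2) rfl rfl

theorem M0_cop {m : ℕ} (h : Nat.Coprime m R) : Nat.Coprime M0 m := by
  rw [Nat.coprime_comm]
  by_contra hg
  obtain ⟨p, hp, hpd⟩ := Nat.exists_prime_and_dvd hg
  have h1 : p ∣ m := hpd.trans (Nat.gcd_dvd_left _ _)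
  have h2 : p ∣ M0 := hpd.trans (Nat.gcd_dvd_right _ _)
  have h3 : (p : ℤ) ∣ a0 := by
    rw [← M0_eq]
    exact Int.natCast_dvd_natCast.2 h2
  exact Nat.not_coprime_of_dvd_of_dvd hp.one_lt h1 (prime_dvd_a0 hp h3) h

/-- the mean with the class condition -/
theorem cb1_EM' (T : Finset ℕ) (h1 : ∀ m ∈ T, Nat.Coprime m R)
    (h2 : ∀ m ∈ T, ∀ m' ∈ T, m ≠ m' → Nat.Coprime m m') (h : ℕ → ℤ × ℤ × ℤ → ℝ)
    (h3 : ∀ m ∈ T, Per3 m (h m)) [NeZero M0] [NeZero (M0 * ∏ m ∈ T, m)] :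
    EM (M0 * ∏ m ∈ T, m) (fun g => ck g * ∏ m ∈ T, h m (QQ g)) =
      EM M0 ck * ∏ m ∈ T, MV m (h m) := by
  have hMz : NeZero (∏ m ∈ T, m) := ⟨by
    rw [Finset.prod_ne_zero_iff]
    exact fun m hm => cb1_pos (h1 m hm)⟩
  have hc : Nat.Coprime M0 (∏ m ∈ T, m) := Nat.Coprime.prod_right fun m hm => M0_cop (h1 m hm)
  have hPT : Per (∏ m ∈ T, m) (fun g => ∏ m ∈ T, h m (QQ g)) :=
    cb1_per_prod T _ (fun m hm => Finset.dvd_prod_of_mem _ hm) h h3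
  rw [EM_mul M0 (∏ m ∈ T, m) ck _ ck_per hPT hc, cb1_EM T h1 h2 h h3 _ rfl hMz]

theorem MV01 (m : ℕ) (h : ℤ × ℤ × ℤ → ℝ) (h01 : ∀ v, 0 ≤ h v ∧ h v ≤ 1) :
    0 ≤ MV m h ∧ MV m h ≤ 1 := by
  unfold MV
  constructor
  · exact div_nonneg (Finset.sum_nonneg fun v _ => (h01 v).1) (Nat.cast_nonneg _)
  · apply div_le_one_of_le₀ _ (Nat.cast_nonneg _)
    calc ∑ v ∈ V3 m, h v ≤ ∑ _v ∈ V3 m, (1 : ℝ) := Finset.sum_le_sum fun v _ => (h01 v).2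
      _ = ((V3 m).card : ℝ) := by rw [Finset.sum_const, nsmul_eq_mul, mul_one]

/-- sums over `Bx` as sums over the box -/
theorem Bx_sum (i : ℕ) (j l : ℤ) (n : ℕ) (F : ℤ × ℤ × ℤ × ℤ → ℝ) :
    ∑ t ∈ NC.Bx i j l n, F (emat t) =
      ∑ t ∈ EBox (i * n) ((i + 1) * n) (j * n) ((j + 1) * n) (l * n) ((l + 1) * n),
        ck (emat t) * F (emat t) := by
  unfold NC.Bx
  rw [Finset.sum_filter]
  refine Finset.sum_congr rfl fun t _ => ?_
  unfold ck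
  by_cases hc : Int.gcd t.1 (R : ℤ) = 1 ∧ (emat t).2.1 % a0 = b0 * (emat t).2.2.2 % a0
  · rw [if_pos hc, if_pos (show Int.gcd (emat t).1 (R : ℤ) = 1 ∧
      (emat t).2.1 % a0 = b0 * (emat t).2.2.2 % a0 from hc), one_mul]
  · rw [if_neg hc, if_neg (show ¬ (Int.gcd (emat t).1 (R : ℤ) = 1 ∧
      (emat t).2.1 % a0 = b0 * (emat t).2.2.2 % a0) from hc), zero_mul]

end Pool.Agent.AQ.CV
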