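import Pool.Agent.Lib_helper96.AQC.CB1

/-!
# AQ: COV for the boxes (helper96): equidistribution of the box `Bx`
-/

set_option autoImplicit false

namespace Pool.Agent.AQ.CV

open Finset Pool.Agent.PENT Pool.Agent.PENT.EQ

variable [Cst]

/-- equidistribution of the matrices of a box -/
theorem eq_box (i : ℕ) (hi : 1 ≤ i) (j l : ℤ) : ∃ (c : ℝ) (n₀ : ℕ), 0 < c ∧ c ≤ 1 / 100 ∧
    ∀ n ≥ n₀, EqFam (NC.Bx i j l n) (fun t => QQ (emat t)) (((n ^ 2 : ℕ) : ℝ) ^ c)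
      (((n ^ 2 : ℕ) : ℝ) ^ (1 - c)) := by
  obtain ⟨c0, X₀, hc, hc1, hX0, H⟩ := eq_mean
  obtain ⟨x₁, hx₁⟩ := Filter.eventually_atTop.1
    ((tendsto_rpow_atTop (show 0 < 3 * c0 / 4 by positivity)).eventually_ge_atTop
      (max (M0 : ℝ) (max ((i : ℝ) + 1) 2)))
  refine ⟨c0 / 4, ⌈max x₁ X₀⌉₊ + 1, by positivity, by linarith, ?_⟩
  intro n hn T hT hcop hL h hper h01
  obtain ⟨X, hXd⟩ : ∃ X : ℝ, X = ((n ^ 2 : ℕ) : ℝ) := ⟨_, rfl⟩
  rw [← hXd] at hL ⊢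
  have hn1 : max x₁ X₀ ≤ (n : ℝ) := by
    have h1 := Nat.le_ceil (max x₁ X₀)
    have h2 : ((⌈max x₁ X₀⌉₊ + 1 : ℕ) : ℝ) ≤ (n : ℝ) := by exact_mod_cast hn
    push_cast at h2
    linarith
  have hn2 : (1 : ℝ) ≤ (n : ℝ) := by
    have h2 : ((⌈max x₁ X₀⌉₊ + 1 : ℕ) : ℝ) ≤ (n : ℝ) := by exact_mod_cast hn
    push_cast at h2
    have h3 : (0 : ℝ) ≤ (⌈max x₁ X₀⌉₊ : ℝ) := Nat.cast_nonneg _
    linarith
  have hXn : X = (n : ℝ) ^ 2 := by rw [hXd]; push_cast; ring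
  have hnX : (n : ℝ) ≤ X := by rw [hXn]; nlinarith
  have hX1 : 1 ≤ X := hn2.trans hnX
  have hX0' : X₀ ≤ X := ((le_max_right _ _).trans hn1).trans hnX
  have hbig := hx₁ X (((le_max_left _ _).trans hn1).trans hnX)
  have hb1 : (M0 : ℝ) ≤ X ^ (3 * c0 / 4) := (le_max_left _ _).trans hbig
  have hb2 : (i : ℝ) + 1 ≤ X ^ (3 * c0 / 4) :=
    ((le_max_left _ _).trans (le_max_right _ _)).trans hbig
  have hb3 : (2 : ℝ) ≤ X ^ (3 * c0 / 4) :=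
    ((le_max_right _ _).trans (le_max_right _ _)).trans hbig
  have hXp : 0 < X := by linarith
  have hhalf : X ^ (1 / 2 : ℝ) = (n : ℝ) := by
    rw [hXn, ← Real.sqrt_eq_rpow, Real.sqrt_sq (by linarith)]
  have hup : X ^ (1 / 2 + c0) = (n : ℝ) * X ^ c0 := by
    rw [Real.rpow_add hXp, hhalf]
  have hc0X : X ^ (3 * c0 / 4) ≤ X ^ c0 :=
    Real.rpow_le_rpow_of_exponent_le hX1 (by linarith)
  have hi' : (i : ℝ) + 1 ≤ X ^ c0 := hb2.trans hc0X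
  have h1X : 1 ≤ X ^ c0 := Real.one_le_rpow hX1 hc.le
  -- the geometric conditions
  have a1 : X ^ (1 / 2 - c0) ≤ ((i * n : ℕ) : ℝ) := by
    calc X ^ (1 / 2 - c0) ≤ X ^ (1 / 2 : ℝ) :=
          Real.rpow_le_rpow_of_exponent_le hX1 (by linarith)
      _ = (n : ℝ) := hhalf
      _ ≤ ((i * n : ℕ) : ℝ) := by
          push_cast
          have : (1 : ℝ) ≤ (i : ℝ) := by exact_mod_cast hi
          nlinarith
  have a2 : i * n ≤ (i + 1) * n := Nat.mul_le_mul_right _ (by omega)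
  have a3 : (((i + 1) * n : ℕ) : ℝ) ≤ X ^ (1 / 2 + c0) := by
    rw [hup]
    push_cast
    rw [mul_comm]
    exact mul_le_mul_of_nonneg_left hi' (by linarith)
  have b1 : ∀ j : ℤ, j * (n : ℤ) ≤ (j + 1) * (n : ℤ) := fun j =>
    mul_le_mul_of_nonneg_right (by omega) (Int.natCast_nonneg n)
  have b2 : ∀ j : ℤ, (((j + 1) * (n : ℤ) : ℤ) : ℝ) - ((j * (n : ℤ) : ℤ) : ℝ) ≤
      X ^ (1 / 2 + c0) := by
    intro j
    rw [hup]
    push_cast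
    have h1 : ((j : ℝ) + 1) * n - j * n = n := by ring
    rw [h1]
    exact le_mul_of_one_le_right (by linarith) h1X
  have hM0 : NeZero M0 := ⟨M0_pos.ne'⟩
  have hMT : (∏ m ∈ T, m) ≠ 0 := by
    rw [Finset.prod_ne_zero_iff]
    exact fun m hm => cb1_pos (hT m hm)
  have hMz : NeZero (M0 * ∏ m ∈ T, m) := ⟨mul_ne_zero M0_pos.ne' hMT⟩
  have hPT : Per (∏ m ∈ T, m) (fun g => ∏ m ∈ T, h m (QQ g)) :=
    cb1_per_prod T _ (fun m hm => Finset.dvd_prod_of_mem _ hm) h hper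
  have hP01 : ∀ g : ℤ × ℤ × ℤ × ℤ, 0 ≤ ∏ m ∈ T, h m (QQ g) ∧ ∏ m ∈ T, h m (QQ g) ≤ 1 := by
    intro g
    exact ⟨Finset.prod_nonneg fun m hm => (h01 m hm _).1,
      Finset.prod_le_one (fun m hm => (h01 m hm _).1) (fun m hm => (h01 m hm _).2)⟩
  have hF : Per (M0 * ∏ m ∈ T, m) (fun g => ck g * ∏ m ∈ T, h m (QQ g)) := by
    intro g g' h1 h2 h3 h4
    have k1 := gb1_per_dvd M0 _ (dvd_mul_right M0 (∏ m ∈ T, m)) ck ck_per g g' h1 h2 h3 h4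
    have k2 := gb1_per_dvd _ _ (dvd_mul_left (∏ m ∈ T, m) M0) _ hPT g g' h1 h2 h3 h4
    show ck g * ∏ m ∈ T, h m (QQ g) = ck g' * ∏ m ∈ T, h m (QQ g')
    rw [k1, k2]
  have hF01 : ∀ g : ℤ × ℤ × ℤ × ℤ, 0 ≤ ck g * ∏ m ∈ T, h m (QQ g) ∧
      ck g * ∏ m ∈ T, h m (QQ g) ≤ 1 := by
    intro g
    exact ⟨mul_nonneg (ck01 g).1 (hP01 g).1, mul_le_one₀ (ck01 g).2 (hP01 g).1 (hP01 g).2⟩
  have hMX : ((M0 * ∏ m ∈ T, m : ℕ) : ℝ) ≤ X ^ c0 := by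
    push_cast
    have e : X ^ c0 = X ^ (3 * c0 / 4) * X ^ (c0 / 4) := by
      rw [← Real.rpow_add hXp]
      congr 1
      ring
    rw [e]
    refine mul_le_mul hb1 ?_ (Finset.prod_nonneg fun m _ => Nat.cast_nonneg _) (by positivity)
    have := hL
    push_cast at this
    exact this
  have hM0X : ((M0 : ℕ) : ℝ) ≤ X ^ c0 := hb1.trans hc0X
  have K1 := H X hX0' (M0 * ∏ m ∈ T, m) hMz hMX (i * n) ((i + 1) * n) (j * n) ((j + 1) * n)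
    (l * n) ((l + 1) * n) a1 a2 a3 (b1 j) (b2 j) (b1 l) (b2 l)
    (fun g => ck g * ∏ m ∈ T, h m (QQ g)) hF hF01
  have K2 := H X hX0' M0 hM0 hM0X (i * n) ((i + 1) * n) (j * n) ((j + 1) * n)
    (l * n) ((l + 1) * n) a1 a2 a3 (b1 j) (b2 j) (b1 l) (b2 l) ck ck_per ck01
  rw [cb1_EM' T hT hcop h hper] at K1
  have e1 := Bx_sum i j l n (fun g => ∏ m ∈ T, h m (QQ g))
  have e2 : ((NC.Bx i j l n).card : ℝ) =
      ∑ t ∈ EBox (i * n) ((i + 1) * n) (j * n) ((j + 1) * n) (l * n) ((l + 1) * n),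
        ck (emat t) := by
    have := Bx_sum i j l n (fun _ => (1 : ℝ))
    rw [Finset.sum_const, nsmul_eq_mul, mul_one] at this
    rw [this]
    exact Finset.sum_congr rfl fun t _ => mul_one _
  rw [e2, e1]
  set S1 := ∑ t ∈ EBox (i * n) ((i + 1) * n) (j * n) ((j + 1) * n) (l * n) ((l + 1) * n),
    ck (emat t) * ∏ m ∈ T, h m (QQ (emat t)) with hS1
  set S2 := ∑ t ∈ EBox (i * n) ((i + 1) * n) (j * n) ((j + 1) * n) (l * n) ((l + 1) * n),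
    ck (emat t) with hS2
  set P := ∏ m ∈ T, MV m (h m) with hP
  have hPle : 0 ≤ P ∧ P ≤ 1 :=
    ⟨Finset.prod_nonneg fun m hm => (MV01 m (h m) (h01 m hm)).1,
      Finset.prod_le_one (fun m hm => (MV01 m (h m) (h01 m hm)).1)
        (fun m hm => (MV01 m (h m) (h01 m hm)).2)⟩
  set C := ((EBox (i * n) ((i + 1) * n) (j * n) ((j + 1) * n) (l * n) ((l + 1) * n)).card : ℝ)
  have e3 : S1 - S2 * P = (S1 - C * (EM M0 ck * P)) - (S2 - C * EM M0 ck) * P := by ring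
  rw [e3]
  have e4 : 2 * X ^ (1 - c0) ≤ X ^ (1 - c0 / 4) := by
    calc 2 * X ^ (1 - c0) ≤ X ^ (3 * c0 / 4) * X ^ (1 - c0) :=
          mul_le_mul_of_nonneg_right hb3 (by positivity)
      _ = X ^ (1 - c0 / 4) := by
          rw [← Real.rpow_add hXp]
          congr 1
          ring
  calc |(S1 - C * (EM M0 ck * P)) - (S2 - C * EM M0 ck) * P|
      ≤ |S1 - C * (EM M0 ck * P)| + |(S2 - C * EM M0 ck) * P| := abs_sub _ _
    _ ≤ X ^ (1 - c0) + X ^ (1 - c0) * 1 := by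
        refine add_le_add K1 ?_
        rw [abs_mul, abs_of_nonneg hPle.1]
        exact mul_le_mul K2 hPle.2 hPle.1 (by positivity)
    _ = 2 * X ^ (1 - c0) := by ring
    _ ≤ X ^ (1 - c0 / 4) := e4

end Pool.Agent.AQ.CV
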