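import Pool.Agent.Lib_helper8.AQ.NCDefs
import Pool.Agent.Lib_helper39.PEQ.Defs

/-!
# AQ: COV for the boxes (helper96): the matrices of a box, injectivity of the form
-/

set_option autoImplicit false

namespace Pool.Agent.AQ.CV

open Finset Pool.Agent.PENT Pool.Agent.PENT.EQ

variable [Cst]

omit [Cst] in
/-- the elements of a box -/
theorem mem_EB {i : ℕ} {j l : ℤ} {n : ℕ} {t : ℤ × ℤ × ℤ}
    (h : t ∈ EBox (i * n) ((i + 1) * n) (j * n) ((j + 1) * n) (l * n) ((l + 1) * n)) :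
    ((i : ℤ) * n < t.1 ∧ t.1 ≤ ((i : ℤ) + 1) * n) ∧ (j * n < t.2.1 ∧ t.2.1 ≤ (j + 1) * n) ∧
      (l * n < t.2.2 ∧ t.2.2 ≤ (l + 1) * n) ∧ t.1 ∣ t.2.1 * t.2.2 + 1 := by
  unfold EBox at h
  rw [mem_filter, mem_product, mem_product, mem_Ioc, mem_Ioc, mem_Ioc] at h
  obtain ⟨⟨h1, h2, h3⟩, h4⟩ := h
  push_cast at h1
  exact ⟨h1, h2, h3, h4⟩

omit [Cst] in
/-- the determinant -/
theorem emat_det {t : ℤ × ℤ × ℤ} (h : t.1 ∣ t.2.1 * t.2.2 + 1) :
    t.1 * (emat t).2.2.2 - t.2.1 * t.2.2 = 1 := by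
  show t.1 * ((t.2.1 * t.2.2 + 1) / t.1) - t.2.1 * t.2.2 = 1
  rw [Int.mul_ediv_cancel' h]
  ring

theorem QQ_emat (t : ℤ × ℤ × ℤ) : QQ (emat t) = (t.1 ^ 2 + D * t.2.2 ^ 2,
    t.1 * t.2.1 + D * (t.2.2 * (emat t).2.2.2), t.2.1 ^ 2 + D * (emat t).2.2.2 ^ 2) := rfl

omit [Cst] in
theorem cast_n {n : ℕ} (hn : 1 ≤ n) : (0 : ℝ) < (n : ℝ) := by exact_mod_cast hn

/-- `|γ| √(-D) < i n` on an admissible box -/
theorem box_g {i : ℕ} {j l : ℤ} (h : NC.BxOk i j l) {n : ℕ} (hn : 1 ≤ n) {γ : ℤ}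
    (h1 : l * n < γ) (h2 : γ ≤ (l + 1) * n) :
    (n : ℝ) ^ 2 < (i : ℝ) ^ 2 * (n : ℝ) ^ 2 + (D : ℝ) * (γ : ℝ) ^ 2 := by
  have hn0 := cast_n hn
  have h1' : (l : ℝ) * n < γ := by exact_mod_cast h1
  have h2' : (γ : ℝ) ≤ ((l : ℝ) + 1) * n := by exact_mod_cast h2
  have h3 := h.pos ((γ : ℝ) / n) (by rw [le_div_iff₀ hn0]; linarith)
    (by rw [div_le_iff₀ hn0]; exact h2')
  have h4 : (D : ℝ) * ((γ : ℝ) / n) ^ 2 * (n : ℝ) ^ 2 = (D : ℝ) * (γ : ℝ) ^ 2 := by
    field_simp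
  have h5 : 0 < (n : ℝ) ^ 2 := by positivity
  nlinarith

/-- `D` is not `1`, and large when negative -/
theorem D_big : 36 ≤ |D| := by
  have h1 : (R : ℤ) ^ 2 ∣ |D| := (dvd_abs _ _).2 R_sq_dvd_D
  have h2 : (6 : ℤ) ≤ (R : ℤ) := by
    have := Nat.le_of_dvd R_pos six_dvd_R
    exact_mod_cast this
  have h3 := Int.le_of_dvd (abs_pos.2 D_ne) h1
  nlinarith

omit [Cst] in
/-- the unit is bounded -/
theorem unit_bd {i : ℝ} {n u u' e e' x : ℝ} (hi : 2 ≤ i) (hn : 0 < n) (h1 : i * n < u)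
    (h2 : u < (2 * i + 1) * n) (h3 : i * n < u') (h4 : u' < (2 * i + 1) * n) (he : u' = u * e)
    (hee : e * e' = 1) (hx : 2 * x = e + e') : 0 < x ∧ x < 5 / 2 := by
  have hu : 0 < u := lt_trans (by positivity) h1
  have hu' : 0 < u' := lt_trans (by positivity) h3
  have he0 : 0 < e := by
    by_contra hc
    push Not at hc
    nlinarith
  have he0' : 0 < e' := by
    by_contra hc
    push Not at hc
    nlinarith
  have hin : 0 < i * n := by positivity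
  have a1 : (2 * i + 1) * n ≤ 5 / 2 * (i * n) := by nlinarith
  have b1 : e < 5 / 2 := by
    by_contra hc
    push Not at hc
    have : u * (5 / 2) ≤ u * e := mul_le_mul_of_nonneg_left hc hu.le
    nlinarith
  have hu2 : u = u' * e' := by
    rw [he, mul_assoc, hee, mul_one]
  have b2 : e' < 5 / 2 := by
    by_contra hc
    push Not at hc
    have : u' * (5 / 2) ≤ u' * e' := mul_le_mul_of_nonneg_left hc hu'.le
    nlinarith
  constructor <;> linarith

/-- the two vectors differ by a unit, which is `1` -/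
theorem unit_one {i : ℕ} {j l : ℤ} (h : NC.BxOk i j l) {n : ℕ} (hn : 1 ≤ n)
    {α γ α' γ' x y : ℤ} (hα : (i : ℤ) * n < α ∧ α ≤ ((i : ℤ) + 1) * n)
    (hγ : l * n < γ ∧ γ ≤ (l + 1) * n) (hα' : (i : ℤ) * n < α' ∧ α' ≤ ((i : ℤ) + 1) * n)
    (hγ' : l * n < γ' ∧ γ' ≤ (l + 1) * n) (e1 : α' = α * x - D * (γ * y))
    (e2 : γ' = γ * x + α * y) (hN : x ^ 2 + D * y ^ 2 = 1) : x = 1 ∧ y = 0 := by
  have hn0 := cast_n hn
  have hα0 : 0 < α := lt_of_le_of_lt (by positivity) hα.1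
  have hα0' : 0 < α' := lt_of_le_of_lt (by positivity) hα'.1
  have hDb := D_big
  have fin : y = 0 → x = 1 ∧ y = 0 := by
    intro hy
    refine ⟨?_, hy⟩
    rw [hy] at e1 hN
    have h1 : (x - 1) * (x + 1) = 0 := by linear_combination hN
    rcases mul_eq_zero.1 h1 with h2 | h2
    · linarith
    · have h3 : x = -1 := by linarith
      rw [h3] at e1
      exfalso
      linarith
  apply fin
  by_contra hy
  have hy1 : 1 ≤ y ^ 2 := by
    have := sq_pos_of_ne_zero hy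
    omega
  rcases lt_trichotomy D 0 with hD | hD | hD
  · -- `D < 0`
    rw [abs_of_neg hD] at hDb
    set κ : ℝ := Real.sqrt (-(D : ℝ)) with hκ
    have hDR : (D : ℝ) < 0 := by exact_mod_cast hD
    have hκ2 : κ ^ 2 = -(D : ℝ) := Real.sq_sqrt (by linarith)
    have hκ0 : 0 ≤ κ := Real.sqrt_nonneg _
    have e1R : (α' : ℝ) = α * x - D * (γ * y) := by exact_mod_cast e1
    have e2R : (γ' : ℝ) = γ * x + α * y := by exact_mod_cast e2
    have hNR : (x : ℝ) ^ 2 + D * (y : ℝ) ^ 2 = 1 := by exact_mod_cast hN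
    have bnd : ∀ γ : ℤ, l * n < γ → γ ≤ (l + 1) * n → |(γ : ℝ)| * κ < (i : ℝ) * n := by
      intro γ g1 g2
      have g3 := box_g h hn g1 g2
      have g4 : (|(γ : ℝ)| * κ) ^ 2 < ((i : ℝ) * n) ^ 2 := by
        rw [mul_pow, sq_abs, hκ2]
        have : 0 < (n : ℝ) ^ 2 := by positivity
        nlinarith
      exact lt_of_pow_lt_pow_left₀ 2 (by positivity) g4
    have hi2 : (2 : ℝ) ≤ (i : ℝ) := by exact_mod_cast h.i2
    have aR : ∀ α : ℤ, (i : ℤ) * n < α → α ≤ ((i : ℤ) + 1) * n →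
        (i : ℝ) * n < α ∧ (α : ℝ) ≤ ((i : ℝ) + 1) * n := by
      intro α g1 g2
      exact ⟨by exact_mod_cast g1, by exact_mod_cast g2⟩
    have key : (0 : ℝ) < x ∧ (x : ℝ) < 5 / 2 := by
      by_cases hl : 0 ≤ l
      · have pos : ∀ γ : ℤ, l * n < γ → (0 : ℝ) ≤ γ := by
          intro γ g
          have : 0 ≤ l * (n : ℤ) := by positivity
          have : 0 ≤ γ := by linarith
          exact_mod_cast this
        have p1 := pos γ hγ.1
        have p2 := pos γ' hγ'.1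
        have b1 := bnd γ hγ.1 hγ.2
        have b2 := bnd γ' hγ'.1 hγ'.2
        rw [abs_of_nonneg p1] at b1
        rw [abs_of_nonneg p2] at b2
        obtain ⟨c1, c2⟩ := aR α hα.1 hα.2
        obtain ⟨c3, c4⟩ := aR α' hα'.1 hα'.2
        have q1 : 0 ≤ (γ : ℝ) * κ := mul_nonneg p1 hκ0
        have q2 : 0 ≤ (γ' : ℝ) * κ := mul_nonneg p2 hκ0
        refine unit_bd (i := i) (n := n) (u := (α : ℝ) + γ * κ) (u' := (α' : ℝ) + γ' * κ)
          (e := (x : ℝ) + y * κ) (e' := (x : ℝ) - y * κ) hi2 hn0 (by linarith) (by linarith)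
          (by linarith) (by linarith) ?_ ?_ (by ring)
        · rw [e1R, e2R]
          linear_combination (-(γ : ℝ) * y) * hκ2
        · linear_combination hNR - (y : ℝ) ^ 2 * hκ2
      · have neg : ∀ γ : ℤ, γ ≤ (l + 1) * n → (γ : ℝ) ≤ 0 := by
          intro γ g
          have h1 : (l + 1) * (n : ℤ) ≤ 0 :=
            mul_nonpos_of_nonpos_of_nonneg (by omega) (Int.natCast_nonneg n)
          have : γ ≤ 0 := by linarith
          exact_mod_cast this
        have p1 := neg γ hγ.2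
        have p2 := neg γ' hγ'.2
        have b1 := bnd γ hγ.1 hγ.2
        have b2 := bnd γ' hγ'.1 hγ'.2
        rw [abs_of_nonpos p1] at b1
        rw [abs_of_nonpos p2] at b2
        obtain ⟨c1, c2⟩ := aR α hα.1 hα.2
        obtain ⟨c3, c4⟩ := aR α' hα'.1 hα'.2
        have q1 : 0 ≤ -(γ : ℝ) * κ := mul_nonneg (by linarith) hκ0
        have q2 : 0 ≤ -(γ' : ℝ) * κ := mul_nonneg (by linarith) hκ0
        refine unit_bd (i := i) (n := n) (u := (α : ℝ) - γ * κ) (u' := (α' : ℝ) - γ' * κ)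
          (e := (x : ℝ) - y * κ) (e' := (x : ℝ) + y * κ) hi2 hn0 (by linarith) (by linarith)
          (by linarith) (by linarith) ?_ ?_ (by ring)
        · rw [e1R, e2R]
          linear_combination (-(γ : ℝ) * y) * hκ2
        · linear_combination hNR - (y : ℝ) ^ 2 * hκ2
    have hx1 : x ≤ 2 := by
      by_contra hc
      push Not at hc
      have h1 : (3 : ℝ) ≤ x := by exact_mod_cast hc
      linarith [key.2]
    have hx0 : 0 < x := by exact_mod_cast key.1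
    nlinarith
  · exact D_ne hD
  · rw [abs_of_pos hD] at hDb
    nlinarith [sq_nonneg x]

/-- the form determines the matrix of a box -/
theorem QQ_inj {i : ℕ} {j l : ℤ} (h : NC.BxOk i j l) {n : ℕ} (hn : 1 ≤ n) :
    Set.InjOn (fun t => QQ (emat t)) (NC.Bx i j l n : Set (ℤ × ℤ × ℤ)) := by
  intro t ht t' ht' hQ
  rw [Finset.mem_coe] at ht ht'
  unfold NC.Bx at ht ht'
  obtain ⟨hα, hβ, hγ, hd⟩ := mem_EB (mem_filter.1 ht).1
  obtain ⟨hα', hβ', hγ', hd'⟩ := mem_EB (mem_filter.1 ht').1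
  have hdet := emat_det hd
  have hdet' := emat_det hd'
  simp only [QQ_emat, Prod.mk.injEq] at hQ
  obtain ⟨q1, q2, -⟩ := hQ
  obtain ⟨α, β, γ⟩ := t
  obtain ⟨α', β', γ'⟩ := t'
  simp only at hα hβ hγ hα' hβ' hγ' hdet hdet' q1 q2
  set δ := (emat (α, β, γ)).2.2.2 with hδ
  set δ' := (emat (α', β', γ')).2.2.2 with hδ'
  have hα0 : 0 < α := lt_of_le_of_lt (by positivity) hα.1
  -- `α' = a δ' - b γ'` etc.
  have k1 : α' = (α ^ 2 + D * γ ^ 2) * δ' - (α * β + D * (γ * δ)) * γ' := by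
    rw [q1, q2]
    linear_combination (-α') * hdet'
  have e1 : α' = α * (α * δ' - β * γ') - D * (γ * (δ * γ' - γ * δ')) := by
    rw [k1]; ring
  have e2 : γ' = γ * (α * δ' - β * γ') + α * (δ * γ' - γ * δ') := by
    linear_combination (-γ') * hdet
  -- the norm of the unit
  have ha : 0 < α ^ 2 + D * γ ^ 2 := by
    have h1 := box_g h hn hγ.1 hγ.2
    have h2 : (i : ℝ) * n < α := by exact_mod_cast hα.1
    have h3 : (0 : ℝ) ≤ (i : ℝ) * n := by positivity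
    have h4 : ((i : ℝ) * n) ^ 2 ≤ (α : ℝ) ^ 2 := pow_le_pow_left₀ h3 h2.le 2
    have h5 : (0 : ℝ) ≤ (n : ℝ) ^ 2 := by positivity
    have h6 : (0 : ℝ) < (α : ℝ) ^ 2 + D * (γ : ℝ) ^ 2 := by
      rw [mul_pow] at h4
      linarith
    exact_mod_cast h6
  have hN : (α * δ' - β * γ') ^ 2 + D * (δ * γ' - γ * δ') ^ 2 = 1 := by
    have h1 : (α ^ 2 + D * γ ^ 2) * ((α * δ' - β * γ') ^ 2 + D * (δ * γ' - γ * δ') ^ 2) =
        (α ^ 2 + D * γ ^ 2) * 1 := by
      calc (α ^ 2 + D * γ ^ 2) * ((α * δ' - β * γ') ^ 2 + D * (δ * γ' - γ * δ') ^ 2) =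
          (α * (α * δ' - β * γ') - D * (γ * (δ * γ' - γ * δ'))) ^ 2 +
            D * (γ * (α * δ' - β * γ') + α * (δ * γ' - γ * δ')) ^ 2 := by ring
        _ = α' ^ 2 + D * γ' ^ 2 := by rw [← e1, ← e2]
        _ = (α ^ 2 + D * γ ^ 2) * 1 := by rw [q1, mul_one]
    exact mul_left_cancel₀ ha.ne' h1
  obtain ⟨hx, hy⟩ := unit_one h hn hα hγ hα' hγ' e1 e2 hN
  rw [hx, hy] at e1 e2
  have f1 : α' = α := by rw [e1]; ring
  have f2 : γ' = γ := by rw [e2]; ring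
  have f3 : β' = β := by
    have g1 : (α ^ 2 + D * γ ^ 2) * β = α * (α * β + D * (γ * δ)) - D * γ := by
      linear_combination (-(D * γ)) * hdet
    have g2 : (α' ^ 2 + D * γ' ^ 2) * β' = α' * (α' * β' + D * (γ' * δ')) - D * γ' := by
      linear_combination (-(D * γ')) * hdet'
    rw [← q1, ← q2, f1, f2, ← g1] at g2
    exact mul_left_cancel₀ ha.ne' g2
  rw [f1, f2, f3]

/-- the number of the matrices of a box -/
theorem card_Bx {i : ℕ} {j l : ℤ} (hi : 1 ≤ i) (n : ℕ) :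
    (NC.Bx i j l n).card ≤ n ^ 2 := by
  have h1 : Set.InjOn (fun t : ℤ × ℤ × ℤ => (t.1, t.2.2))
      (NC.Bx i j l n : Set (ℤ × ℤ × ℤ)) := by
    intro t ht t' ht' he
    rw [Finset.mem_coe] at ht ht'
    unfold NC.Bx at ht ht'
    obtain ⟨hα, hβ, hγ, hd⟩ := mem_EB (mem_filter.1 ht).1
    obtain ⟨hα', hβ', hγ', hd'⟩ := mem_EB (mem_filter.1 ht').1
    obtain ⟨α, β, γ⟩ := t
    obtain ⟨α', β', γ'⟩ := t'
    simp only [Prod.mk.injEq] at he
    obtain ⟨rfl, rfl⟩ := he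
    simp only at hα hβ hd hβ' hd'
    have hc : IsCoprime α γ := by
      obtain ⟨k, hk⟩ := hd
      exact ⟨k, -β, by linarith⟩
    have h2 : α ∣ (β - β') * γ := by
      have e : (β - β') * γ = (β * γ + 1) - (β' * γ + 1) := by ring
      rw [e]
      exact dvd_sub hd hd'
    have h3 : α ∣ β - β' := hc.dvd_of_dvd_mul_right h2
    have h4 : β - β' = 0 := by
      apply Int.eq_zero_of_abs_lt_dvd h3
      rw [abs_lt]
      have hi' : (n : ℤ) ≤ (i : ℤ) * n := by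
        have : (1 : ℤ) ≤ (i : ℤ) := by exact_mod_cast hi
        nlinarith [Int.natCast_nonneg n]
      have e : (j + 1) * (n : ℤ) = j * n + n := by ring
      rw [e] at hβ hβ'
      constructor <;> linarith [hα.1, hβ.1, hβ.2, hβ'.1, hβ'.2]
    rw [show β = β' by linarith]
  have h2 : ∀ t ∈ NC.Bx i j l n, (t.1, t.2.2) ∈
      (Ioc ((i : ℤ) * n) (((i : ℤ) + 1) * n)) ×ˢ (Ioc (l * (n : ℤ)) ((l + 1) * n)) := by
    intro t ht
    unfold NC.Bx at ht
    obtain ⟨hα, hβ, hγ, hd⟩ := mem_EB (mem_filter.1 ht).1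
    rw [mem_product, mem_Ioc, mem_Ioc]
    exact ⟨hα, hγ⟩
  have h3 := Finset.card_le_card_of_injOn (fun t : ℤ × ℤ × ℤ => (t.1, t.2.2)) h2 h1
  rw [card_product, Int.card_Ioc, Int.card_Ioc] at h3
  have e1 : (((i : ℤ) + 1) * n - (i : ℤ) * n).toNat = n := by
    have : (((i : ℤ) + 1) * n - (i : ℤ) * n) = n := by ring
    rw [this]
    exact Int.toNat_natCast n
  have e2 : ((l + 1) * (n : ℤ) - l * n).toNat = n := by
    have : ((l + 1) * (n : ℤ) - l * n) = n := by ring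
    rw [this]
    exact Int.toNat_natCast n
  rw [e1, e2] at h3
  calc (NC.Bx i j l n).card ≤ n * n := h3
    _ = n ^ 2 := by ring

end Pool.Agent.AQ.CV
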